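import Pool.Agent.Lib.MP_dd84fd_nt.ET.Pow

/-!
# The values `a + q m ^ k` as a set of translates

`Pow.lean` in the form of a statement about the set of the `m ^ k`, `M ≤ m < 2 M`.
-/

set_option autoImplicit false

namespace Pool.MP_dd84fd_nt.ET

open Finset MeasureTheory Filter

private theorem inj_pow (k : ℕ) (hk : 1 ≤ k) (s : Set ℕ) : Set.InjOn (fun m : ℕ => m ^ k) s := by
  intro a _ b _ h
  exact Nat.pow_left_injective (by omega) h

open Classical in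
/-- **almost all even members of `a + q {m ^ k : M ≤ m < 2 M}`** -/
theorem powers (F : ℕ → Prop) (κ : ℕ) (hκ : 1 ≤ κ)
    (H : ∀ ε₀ : ℝ, 0 < ε₀ → ∀ A : ℕ, ∃ B : ℕ, ∀ K : ℕ, ∃ X₀ : ℕ, ∀ X : ℕ, X₀ ≤ X →
      ∀ q : ℕ, 1 ≤ q → (q : ℝ) ≤ (X : ℝ) ^ ((κ : ℝ) / (κ + 1) - ε₀) →
      ∀ a : ℕ, (Nat.gcd a q : ℝ) ≤ Real.log X ^ K →
      ∀ ξ : ℕ → ℝ, (∀ n, 0 ≤ ξ n) → (∀ n, ξ n ≠ 0 → n ≡ a [MOD q]) → ∑ n ∈ Icc 1 X, ξ n = 1 →
      volume {θ : ℝ | 0 ≤ θ ∧ θ ≤ 1 ∧ 1 / Real.log X ^ B <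
        ‖∑ n ∈ Icc 1 X, (ξ n : ℂ) * Complex.exp (2 * Real.pi * (n * θ : ℝ) * Complex.I)‖} ≤
        ENNReal.ofReal (q * Real.log X ^ K / X) →
      ∑ n ∈ (Icc 1 X).filter (fun n : ℕ => Even n ∧ F n), ξ n ≤ 1 / Real.log X ^ A)
    (ε : ℝ) (hε : 0 < ε) (A : ℕ) (k : ℕ) (hk : 1 ≤ k) (L : ℕ) :
    ∃ M₀ : ℕ, ∀ M : ℕ, M₀ ≤ M → ∀ q : ℕ, 1 ≤ q → (q : ℝ) ≤ ((M ^ k : ℕ) : ℝ) ^ (κ - ε) →
      ∀ a : ℕ, a ≤ q * M ^ k → (Nat.gcd a q : ℝ) ≤ Real.log (M ^ k : ℕ) ^ L →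
      ((((Ico M (2 * M)).image (fun m => m ^ k)).filter
        (fun t => Even (a + q * t) ∧ F (a + q * t))).card : ℝ) ≤
        ((Ico M (2 * M)).image (fun m => m ^ k)).card / Real.log (M ^ k : ℕ) ^ A := by
  have hk0 : (0 : ℝ) < k := by exact_mod_cast hk
  obtain ⟨M₁, hM₁⟩ := values F κ hκ H k hk (k * ε) (by positivity) (A + 1) (L + 1)
  have hlogT : Filter.Tendsto (fun M : ℕ => Real.log (M : ℝ)) Filter.atTop Filter.atTop :=
    Real.tendsto_log_atTop.comp tendsto_natCast_atTop_atTop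
  obtain ⟨M₂, hM₂⟩ := Filter.eventually_atTop.1
    (hlogT.eventually_ge_atTop ((k : ℝ) ^ A + (k : ℝ) ^ L + 1))
  refine ⟨max M₁ (max M₂ 2), fun M hM q hq hqM a ha hgcd => ?_⟩
  simp only [max_le_iff] at hM
  obtain ⟨h1, h2, h3⟩ := hM
  have hl := hM₂ M h2
  have hMr : (2 : ℝ) ≤ M := by exact_mod_cast h3
  have hM0 : (0 : ℝ) < M := by linarith
  have hkA : (0 : ℝ) < (k : ℝ) ^ A := by positivity
  have hkL : (0 : ℝ) < (k : ℝ) ^ L := by positivity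
  have hl1 : 1 ≤ Real.log M := by linarith
  have hl0 : 0 < Real.log M := by linarith
  have elog : Real.log ((M ^ k : ℕ) : ℝ) = k * Real.log M := by
    push_cast
    rw [Real.log_pow]
  have hq2 : (q : ℝ) ≤ (M : ℝ) ^ (κ * k - k * ε) := by
    have e1 : (((M ^ k : ℕ) : ℝ)) ^ ((κ : ℝ) - ε) = (M : ℝ) ^ ((κ : ℝ) * k - k * ε) := by
      push_cast
      rw [← Real.rpow_natCast, ← Real.rpow_mul hM0.le]
      congr 1
      ring
    rw [← e1]
    exact hqM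
  have hg2 : (Nat.gcd a q : ℝ) ≤ Real.log M ^ (L + 1) := by
    refine hgcd.trans ?_
    rw [elog, mul_pow, pow_succ, mul_comm]
    apply mul_le_mul_of_nonneg_left _ (by positivity)
    linarith
  have h4 := hM₁ M h1 q hq hq2 a ha hg2
  have ecard : ((Ico M (2 * M)).image (fun m => m ^ k)).card = M := by
    rw [Finset.card_image_of_injOn (inj_pow k hk _), Nat.card_Ico]
    omega
  have efil : (((Ico M (2 * M)).image (fun m => m ^ k)).filter
      (fun t => Even (a + q * t) ∧ F (a + q * t))).card ≤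
      ((Ico M (2 * M)).filter (fun m => Even (a + q * m ^ k) ∧ F (a + q * m ^ k))).card := by
    rw [Finset.filter_image]
    exact Finset.card_image_le
  have efil' : ((((Ico M (2 * M)).image (fun m => m ^ k)).filter
      (fun t => Even (a + q * t) ∧ F (a + q * t))).card : ℝ) ≤
      ((Ico M (2 * M)).filter (fun m => Even (a + q * m ^ k) ∧ F (a + q * m ^ k))).card := by
    exact_mod_cast efil
  refine efil'.trans (h4.trans ?_)
  rw [ecard, elog, mul_pow, pow_succ]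
  apply div_le_div_of_nonneg_left hM0.le (by positivity)
  rw [mul_comm]
  apply mul_le_mul_of_nonneg_left _ (by positivity)
  linarith

end Pool.MP_dd84fd_nt.ET
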