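import Pool.Agent.Lib.MP_5349b0_nt.SZ2.A6WeylDiff

/-!
# Geometric sums and the kernel of the interpolation

`geo_le`: `|∑_{s < n} e (s x)| ≤ 1 / (2 ‖x‖)`.  `ker_sum`: the sum over `k < D` of the absolute
values of `(1/D) ∑_{t < D} e (t (φ - k/D))` is at most `3 + log D`.
-/

set_option autoImplicit false

namespace Pool.MP_dd84fd_nt.ET

open Finset Pool.Agent.Lib.MP_5349b0_nt.SZ2

theorem geo_le (n : ℕ) (x : ℝ) (h : 0 < dZ x) : ‖∑ s ∈ range n, e (s * x)‖ ≤ 1 / (2 * dZ x) := by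
  have h1 : ∀ s : ℕ, e (s * x) = e x ^ s := fun s => e_nsmul s x
  rw [Finset.sum_congr rfl (fun s _ => h1 s)]
  have h2 := A6_norm_e_sub_one x
  have h3 : 0 < ‖e x - 1‖ := by linarith
  have h4 : e x ≠ 1 := by
    intro h0
    rw [h0, sub_self, norm_zero] at h3
    exact lt_irrefl _ h3
  rw [geom_sum_eq h4, norm_div]
  have h5 : ‖e x ^ n - 1‖ ≤ 2 := by
    calc ‖e x ^ n - 1‖ ≤ ‖e x ^ n‖ + ‖(1 : ℂ)‖ := norm_sub_le _ _
      _ = 2 := by rw [norm_pow, norm_e, one_pow, norm_one]; norm_num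
  calc ‖e x ^ n - 1‖ / ‖e x - 1‖ ≤ 2 / (4 * dZ x) := by
        apply div_le_div₀ (by norm_num) h5 (by positivity) h2
    _ = 1 / (2 * dZ x) := by
        field_simp
        norm_num

theorem geo_triv (n : ℕ) (x : ℝ) : ‖∑ s ∈ range n, e (s * x)‖ ≤ n := by
  calc ‖∑ s ∈ range n, e (s * x)‖ ≤ ∑ s ∈ range n, ‖e (s * x)‖ := norm_sum_le _ _
    _ = n := by
        simp only [norm_e]
        simp

/-- the distance to the integers of a number between `0` and `1` -/
theorem dZ_ge (y : ℝ) : min y (1 - y) ≤ dZ y := by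
  unfold dZ
  obtain ⟨z, hz⟩ : ∃ z : ℤ, z = round y := ⟨_, rfl⟩
  rw [← hz]
  rcases le_or_gt z 0 with h | h
  · have : (z : ℝ) ≤ 0 := by exact_mod_cast h
    exact (min_le_left _ _).trans ((by linarith : y ≤ y - z).trans (le_abs_self _))
  · have : (1 : ℝ) ≤ z := by exact_mod_cast h
    refine (min_le_right _ _).trans ?_
    rw [abs_sub_comm]
    exact (by linarith : 1 - y ≤ z - y).trans (le_abs_self _)

/-- the index `m` with `φ - k / D` close to `m / D` modulo one -/
private def idx (D : ℕ) (K : ℤ) (k : ℕ) : ℕ := ((K - k) % D).toNat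

private theorem idx_lt (D : ℕ) (hD : 1 ≤ D) (K : ℤ) (k : ℕ) : idx D K k < D := by
  unfold idx
  have h1 : 0 ≤ (K - k) % D := Int.emod_nonneg _ (by omega)
  have h2 : (K - k) % D < D := Int.emod_lt_of_pos _ (by omega)
  omega

private theorem idx_cast (D : ℕ) (hD : 1 ≤ D) (K : ℤ) (k : ℕ) : ((idx D K k : ℕ) : ℤ) = (K - k) % D := by
  unfold idx
  exact Int.toNat_of_nonneg (Int.emod_nonneg _ (by omega))

private theorem idx_idx (D : ℕ) (K : ℤ) (k : ℕ) (hk : k < D) : idx D K (idx D K k) = k := by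
  have h1 : ((idx D K (idx D K k) : ℕ) : ℤ) = k := by
    rw [idx_cast D (by omega), idx_cast D (by omega), Int.sub_emod, Int.emod_emod_of_dvd _ (dvd_refl _),
      ← Int.sub_emod]
    have h2 : K - (K - k) = (k : ℤ) := by ring
    rw [h2]
    exact Int.emod_eq_of_lt (by omega) (by exact_mod_cast hk)
  exact_mod_cast h1

private theorem idx_sum (D : ℕ) (hD : 1 ≤ D) (K : ℤ) (g : ℕ → ℝ) :
    ∑ k ∈ range D, g (idx D K k) = ∑ m ∈ range D, g m := by
  refine Finset.sum_bij' (fun k _ => idx D K k) (fun m _ => idx D K m) ?_ ?_ ?_ ?_ ?_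
  · intro k _
    exact mem_range.2 (idx_lt D hD K k)
  · intro k _
    exact mem_range.2 (idx_lt D hD K k)
  · intro k hk
    exact idx_idx D K k (mem_range.1 hk)
  · intro k hk
    exact idx_idx D K k (mem_range.1 hk)
  · intro k _
    rfl

private theorem dZ_idx (D : ℕ) (hD : 1 ≤ D) (φ : ℝ) (k : ℕ) :
    min (idx D ⌊D * φ⌋ k : ℝ) (D - 1 - idx D ⌊D * φ⌋ k) / D ≤ dZ (φ - k / D) := by
  have hD0 : (0 : ℝ) < D := by exact_mod_cast hD
  obtain ⟨K, hK⟩ : ∃ K : ℤ, K = ⌊(D : ℝ) * φ⌋ := ⟨_, rfl⟩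
  rw [← hK]
  obtain ⟨β, hβ⟩ : ∃ β : ℝ, β = D * φ - K := ⟨_, rfl⟩
  have hβ0 : 0 ≤ β := by rw [hβ, hK]; linarith [Int.floor_le ((D : ℝ) * φ)]
  have hβ1 : β < 1 := by rw [hβ, hK]; linarith [Int.lt_floor_add_one ((D : ℝ) * φ)]
  obtain ⟨m, hm⟩ : ∃ m : ℕ, m = idx D K k := ⟨_, rfl⟩
  rw [← hm]
  have hm1 : m < D := by rw [hm]; exact idx_lt D hD K k
  have hm2 : (m : ℤ) = (K - k) % D := by rw [hm]; exact idx_cast D hD K k
  have hm3 : K - k = D * ((K - k) / D) + m := by rw [hm2]; exact (Int.mul_ediv_add_emod _ _).symm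
  have hm4 : (K : ℝ) - k = D * (((K - k) / D : ℤ) : ℝ) + m := by exact_mod_cast hm3
  have h1 : φ - k / D = (m + β) / D + (((K - k) / D : ℤ) : ℝ) := by
    have h2 : φ = (K + β) / D := by
      rw [hβ]
      field_simp
      ring
    rw [h2]
    field_simp
    linarith
  rw [h1, dZ_add_int]
  have hm1r : (m : ℝ) + 1 ≤ D := by exact_mod_cast hm1
  have h3 : (m + β) / D ≤ 1 := by
    rw [div_le_one hD0]
    linarith
  have h4 : 0 ≤ (m + β) / D := by positivity
  refine le_trans ?_ (dZ_ge _)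
  have h5 : 1 - (m + β) / D = (D - (m + β)) / D := by
    field_simp
  rw [h5]
  rw [le_min_iff]
  constructor
  · apply div_le_div_of_nonneg_right _ hD0.le
    exact (min_le_left _ _).trans (by linarith)
  · apply div_le_div_of_nonneg_right _ hD0.le
    exact (min_le_right _ _).trans (by linarith)

private noncomputable def gker (x : ℕ) : ℝ := if x = 0 then 1 else 1 / (2 * x)

private theorem gker_nonneg (x : ℕ) : 0 ≤ gker x := by
  unfold gker
  split_ifs <;> positivity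

private theorem sum_gker (D : ℕ) (hD : 1 ≤ D) : ∑ m ∈ range D, gker m ≤ 1 + (1 + Real.log D) / 2 := by
  obtain ⟨d, rfl⟩ : ∃ d, D = d + 1 := ⟨D - 1, by omega⟩
  rw [Finset.sum_range_succ']
  have h0 : gker 0 = 1 := by unfold gker; rw [if_pos rfl]
  rw [h0]
  have h1 : ∑ m ∈ range d, gker (m + 1) = (harmonic d : ℝ) / 2 := by
    rw [harmonic]
    push_cast
    rw [Finset.sum_div]
    refine Finset.sum_congr rfl fun m _ => ?_
    unfold gker
    rw [if_neg (by omega)]
    push_cast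
    field_simp
  have h2 := harmonic_le_one_add_log d
  rw [h1]
  have h3 : Real.log d ≤ Real.log ((d + 1 : ℕ) : ℝ) := by
    rcases Nat.eq_zero_or_pos d with h | h
    · subst h
      simp
    · apply Real.log_le_log (by exact_mod_cast h)
      push_cast
      linarith
  linarith

/-- the `L¹` norm of the kernel -/
theorem ker_sum (D : ℕ) (hD : 1 ≤ D) (φ : ℝ) :
    ∑ k ∈ range D, ‖∑ t ∈ range D, e (t * (φ - k / D))‖ / D ≤ 3 + Real.log D := by
  have hD0 : (0 : ℝ) < D := by exact_mod_cast hD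
  have h1 : ∀ k : ℕ, ‖∑ t ∈ range D, e (t * (φ - k / D))‖ / D ≤
      gker (idx D ⌊D * φ⌋ k) + gker (D - 1 - idx D ⌊D * φ⌋ k) := by
    intro k
    obtain ⟨m, hm⟩ : ∃ m : ℕ, m = idx D ⌊(D : ℝ) * φ⌋ k := ⟨_, rfl⟩
    have h2 := dZ_idx D hD φ k
    have hm1 : m < D := by rw [hm]; exact idx_lt D hD _ k
    rw [← hm] at h2 ⊢
    have hg1 := gker_nonneg m
    have hg2 := gker_nonneg (D - 1 - m)
    have hc : ((D - 1 - m : ℕ) : ℝ) = D - 1 - m := by
      rw [Nat.cast_sub (by omega), Nat.cast_sub (by omega)]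
      norm_num
    by_cases h0 : m = 0
    · have h3 : gker m = 1 := by unfold gker; rw [if_pos h0]
      have h4 : ‖∑ t ∈ range D, e (t * (φ - k / D))‖ / D ≤ 1 := by
        rw [div_le_one hD0]
        exact geo_triv _ _
      linarith
    by_cases h0' : D - 1 - m = 0
    · have h3 : gker (D - 1 - m) = 1 := by unfold gker; rw [if_pos h0']
      have h4 : ‖∑ t ∈ range D, e (t * (φ - k / D))‖ / D ≤ 1 := by
        rw [div_le_one hD0]
        exact geo_triv _ _
      linarith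
    have hmr : (1 : ℝ) ≤ m := by exact_mod_cast Nat.one_le_iff_ne_zero.2 h0
    have hmr' : (1 : ℝ) ≤ D - 1 - m := by
      rw [← hc]
      exact_mod_cast Nat.one_le_iff_ne_zero.2 h0'
    have h3 : 0 < min (m : ℝ) (D - 1 - m) := by
      rw [lt_min_iff]
      constructor <;> linarith
    have h4 : 0 < dZ (φ - k / D) := lt_of_lt_of_le (by positivity) h2
    have h5 := geo_le D _ h4
    have h6 : ‖∑ t ∈ range D, e (t * (φ - k / D))‖ / D ≤ 1 / (2 * min (m : ℝ) (D - 1 - m)) := by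
      calc ‖∑ t ∈ range D, e (t * (φ - k / D))‖ / D ≤ 1 / (2 * dZ (φ - k / D)) / D :=
            div_le_div_of_nonneg_right h5 hD0.le
        _ ≤ 1 / (2 * (min (m : ℝ) (D - 1 - m) / D)) / D := by
            apply div_le_div_of_nonneg_right _ hD0.le
            apply one_div_le_one_div_of_le (by positivity)
            linarith
        _ = 1 / (2 * min (m : ℝ) (D - 1 - m)) := by
            field_simp
    refine h6.trans ?_
    have g1 : gker m = 1 / (2 * m) := by unfold gker; rw [if_neg h0]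
    have g2 : gker (D - 1 - m) = 1 / (2 * (D - 1 - m)) := by unfold gker; rw [if_neg h0', hc]
    rcases min_choice (m : ℝ) (D - 1 - m) with h | h
    · rw [h, ← g1]
      linarith
    · rw [h, ← g2]
      linarith
  calc ∑ k ∈ range D, ‖∑ t ∈ range D, e (t * (φ - k / D))‖ / D
      ≤ ∑ k ∈ range D, (gker (idx D ⌊D * φ⌋ k) + gker (D - 1 - idx D ⌊D * φ⌋ k)) :=
        Finset.sum_le_sum fun k _ => h1 k
    _ = ∑ k ∈ range D, (gker k + gker (D - 1 - k)) :=
        idx_sum D hD ⌊D * φ⌋ (fun m => gker m + gker (D - 1 - m))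
    _ = ∑ k ∈ range D, gker k + ∑ k ∈ range D, gker (D - 1 - k) := Finset.sum_add_distrib
    _ = ∑ k ∈ range D, gker k + ∑ k ∈ range D, gker k := by
        rw [Finset.sum_range_reflect]
    _ ≤ 3 + Real.log D := by
        have := sum_gker D hD
        linarith

end Pool.MP_dd84fd_nt.ET
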