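import Pool.Agent.Lib.MP_dd84fd_nt.ET.Geo

/-!
# From the frequencies `k / D` to all real frequencies

If `F` is a function on `{0, …, D - 1}` with `|∑ F| ≤ 1` and `|∑ F(t) e(t k / D)| ≤ ε` for
`1 ≤ k < D` then `|∑ F(t) e(t φ)| ≤ ε (3 + log D) + 1 / (2 D ‖φ‖)` for every real `φ`.
-/

set_option autoImplicit false

namespace Pool.MP_dd84fd_nt.ET

open Finset Pool.Agent.Lib.MP_5349b0_nt.SZ2

private theorem orth (D : ℕ) (t t' : ℕ) (ht : t < D) (ht' : t' < D) :
    ∑ k ∈ range D, e (k * (((t' : ℝ) - t) / D)) = if t = t' then (D : ℂ) else 0 := by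
  have hD0 : (0 : ℝ) < D := by
    have : 0 < D := by omega
    exact_mod_cast this
  split_ifs with h
  · subst h
    rw [sub_self, zero_div]
    simp only [mul_zero, e_zero]
    simp
  · obtain ⟨x, hx⟩ : ∃ x : ℝ, x = ((t' : ℝ) - t) / D := ⟨_, rfl⟩
    rw [← hx]
    have h1 : e x ≠ 1 := by
      intro h0
      have h2 := A6_norm_e_sub_one x
      rw [h0, sub_self, norm_zero] at h2
      have h3 : dZ x = 0 := le_antisymm (by linarith) (dZ_nonneg x)
      obtain ⟨z, hz⟩ := dZ_eq_zero h3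
      rw [hx, div_eq_iff hD0.ne'] at hz
      have hz' : (t' : ℤ) - t = z * D := by exact_mod_cast hz
      have h4 : z = 0 := by
        by_contra hz0
        have h5 : 1 ≤ |z| := Int.one_le_abs hz0
        have h6 : |(t' : ℤ) - t| = |z| * D := by rw [hz', abs_mul, Nat.abs_cast]
        have h7 : |(t' : ℤ) - t| < D := by
          rw [abs_lt]
          constructor <;> omega
        nlinarith
      rw [h4, zero_mul] at hz'
      omega
    rw [Finset.sum_congr rfl (fun k _ => e_nsmul k x), geom_sum_eq h1]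
    have h2 : e x ^ D = 1 := by
      rw [← e_nsmul]
      have h3 : (D : ℝ) * x = (((t' : ℤ) - t : ℤ) : ℝ) := by
        rw [hx]
        push_cast
        field_simp
      rw [h3, e_int]
    rw [h2, sub_self, zero_div]

theorem interp_eq (D : ℕ) (hD : 1 ≤ D) (F : ℕ → ℂ) (φ : ℝ) :
    ∑ t ∈ range D, F t * e (t * φ) =
      ∑ k ∈ range D, (∑ t ∈ range D, F t * e (t * (k / D))) *
        ((∑ t ∈ range D, e (t * (φ - k / D))) / D) := by
  have hD0 : (D : ℂ) ≠ 0 := by
    have : D ≠ 0 := by omega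
    exact_mod_cast this
  have h1 : ∀ k ∈ range D, (∑ t ∈ range D, F t * e (t * (k / D))) *
      ((∑ t ∈ range D, e (t * (φ - k / D))) / D) =
      ∑ t' ∈ range D, ∑ t ∈ range D, F t' * e (t * φ) / D * e (k * (((t' : ℝ) - t) / D)) := by
    intro k _
    rw [Finset.sum_div, Finset.sum_mul_sum]
    refine Finset.sum_congr rfl fun t' _ => Finset.sum_congr rfl fun t _ => ?_
    have h2 : e (t' * (k / D)) * e (t * (φ - k / D)) = e (t * φ) * e (k * (((t' : ℝ) - t) / D)) := by
      rw [← e_add, ← e_add]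
      congr 1
      ring
    calc F t' * e (t' * (k / D)) * (e (t * (φ - k / D)) / D) =
        F t' / D * (e (t' * (k / D)) * e (t * (φ - k / D))) := by ring
      _ = _ := by
          rw [h2]
          ring
  rw [Finset.sum_congr rfl h1, Finset.sum_comm]
  refine Finset.sum_congr rfl fun t' ht' => ?_
  rw [Finset.sum_comm]
  have h3 : ∀ t ∈ range D, ∑ k ∈ range D, F t' * e (t * φ) / D * e (k * (((t' : ℝ) - t) / D)) =
      if t = t' then F t' * e (t' * φ) else 0 := by
    intro t ht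
    rw [← Finset.mul_sum, orth D t t' (mem_range.1 ht) (mem_range.1 ht')]
    split_ifs with h
    · subst h
      field_simp
    · rw [mul_zero]
  rw [Finset.sum_congr rfl h3, Finset.sum_ite_eq' (range D) t', if_pos ht']

theorem interp (D : ℕ) (hD : 1 ≤ D) (F : ℕ → ℂ) (ε : ℝ) (hε : 0 ≤ ε)
    (h0 : ‖∑ t ∈ range D, F t‖ ≤ 1)
    (h : ∀ k : ℕ, 1 ≤ k → k < D → ‖∑ t ∈ range D, F t * e (t * (k / D))‖ ≤ ε)
    (φ : ℝ) (hφ : 0 < dZ φ) :
    ‖∑ t ∈ range D, F t * e (t * φ)‖ ≤ ε * (3 + Real.log D) + 1 / (2 * D * dZ φ) := by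
  have hD0 : (0 : ℝ) < D := by exact_mod_cast hD
  rw [interp_eq D hD F φ]
  refine (norm_sum_le _ _).trans ?_
  have h1 : ∀ k ∈ range D, ‖(∑ t ∈ range D, F t * e (t * (k / D))) *
      ((∑ t ∈ range D, e (t * (φ - k / D))) / D)‖ ≤
      ε * (‖∑ t ∈ range D, e (t * (φ - k / D))‖ / D) +
        if k = 0 then 1 / (2 * D * dZ φ) else 0 := by
    intro k hk
    rw [norm_mul, norm_div, Complex.norm_natCast]
    split_ifs with h2
    · subst h2
      have h3 : ‖∑ t ∈ range D, F t * e (t * (((0 : ℕ) : ℝ) / D))‖ ≤ 1 := by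
        simp only [Nat.cast_zero, zero_div, mul_zero, e_zero, mul_one]
        exact h0
      have h4 : ‖∑ t ∈ range D, e (t * (φ - ((0 : ℕ) : ℝ) / D))‖ / D ≤ 1 / (2 * D * dZ φ) := by
        simp only [Nat.cast_zero, zero_div, sub_zero]
        calc ‖∑ t ∈ range D, e (t * φ)‖ / D ≤ 1 / (2 * dZ φ) / D :=
              div_le_div_of_nonneg_right (geo_le D φ hφ) hD0.le
          _ = 1 / (2 * D * dZ φ) := by
              rw [div_div]
              congr 1
              ring
      have h5 : 0 ≤ ‖∑ t ∈ range D, e (t * (φ - ((0 : ℕ) : ℝ) / D))‖ / D := by positivity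
      have h6 : 0 ≤ ε * (‖∑ t ∈ range D, e (t * (φ - ((0 : ℕ) : ℝ) / D))‖ / D) := mul_nonneg hε h5
      calc _ ≤ 1 * (‖∑ t ∈ range D, e (t * (φ - ((0 : ℕ) : ℝ) / D))‖ / D) :=
            mul_le_mul_of_nonneg_right h3 h5
        _ ≤ _ := by linarith
    · rw [add_zero]
      exact mul_le_mul_of_nonneg_right (h k (Nat.one_le_iff_ne_zero.2 h2) (mem_range.1 hk)) (by positivity)
  refine (Finset.sum_le_sum h1).trans ?_
  rw [Finset.sum_add_distrib, ← Finset.mul_sum, Finset.sum_ite_eq' (range D) 0,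
    if_pos (mem_range.2 (by omega))]
  have h2 := ker_sum D hD φ
  have h3 := mul_le_mul_of_nonneg_left h2 hε
  linarith

end Pool.MP_dd84fd_nt.ET
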