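import Pool.Agent.Lib.MP_dd84fd_nt.ET.Spec

/-!
# From random integers with small large spectrum to finite sets with small large spectrum

If a property `F` of the integers `n ≤ X` has probability at most `(log X) ^ (-A)` for every random
integer in a residue class modulo `q ≤ X ^ (κ/(κ+1) - ε₀)` whose large spectrum has measure at most
`q (log X) ^ K / X`, then for every finite set `t ⊆ [0, D]` for which the set of the `θ ∈ [0, 1]` with
`|∑ e(t θ)| > #t / (log D) ^ B` has measure at most `(log D) ^ K / D`, at most a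
`(log D) ^ (-A)` proportion of the `t` are such that `a + q t` has the property `F`, for all
`q ≤ D ^ (κ - ε)` and all `1 ≤ a ≤ q D` with `(a, q) ≤ (log D) ^ L`.
-/

set_option autoImplicit false

namespace Pool.MP_dd84fd_nt.ET

open Finset MeasureTheory Filter

/-- the measure of the preimage of a periodic set under `θ ↦ q θ` -/
theorem vol_mul (P : ℝ → Prop) (hP : ∀ (θ : ℝ) (j : ℕ), P θ → P (θ - j)) (q : ℕ) (hq : 1 ≤ q) :
    volume {θ : ℝ | 0 ≤ θ ∧ θ ≤ 1 ∧ P (q * θ)} ≤ volume {θ : ℝ | 0 ≤ θ ∧ θ ≤ 1 ∧ P θ} := by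
  obtain ⟨E, hE⟩ : ∃ E : Set ℝ, E = {θ : ℝ | 0 ≤ θ ∧ θ ≤ 1 ∧ P θ} := ⟨_, rfl⟩
  rw [← hE]
  have hq0 : (0 : ℝ) < q := by exact_mod_cast hq
  have h1 : {θ : ℝ | 0 ≤ θ ∧ θ ≤ 1 ∧ P (q * θ)} ⊆
      ⋃ j ∈ range q, (fun θ : ℝ => (q : ℝ) * θ) ⁻¹' ((fun u : ℝ => -(j : ℝ) + u) ⁻¹' E) := by
    rintro θ ⟨h0, h1, h2⟩
    rw [Set.mem_iUnion₂]
    obtain ⟨j, hj⟩ : ∃ j : ℕ, j = min ⌊(q : ℝ) * θ⌋₊ (q - 1) := ⟨_, rfl⟩
    have hqθ : 0 ≤ (q : ℝ) * θ := by positivity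
    have hj1 : (j : ℝ) ≤ q * θ := by
      have h3 : j ≤ ⌊(q : ℝ) * θ⌋₊ := by rw [hj]; exact min_le_left _ _
      calc (j : ℝ) ≤ (⌊(q : ℝ) * θ⌋₊ : ℝ) := by exact_mod_cast h3
        _ ≤ q * θ := Nat.floor_le hqθ
    have hj2 : (q : ℝ) * θ - j ≤ 1 := by
      rcases le_total ⌊(q : ℝ) * θ⌋₊ (q - 1) with h | h
      · rw [min_eq_left h] at hj
        rw [hj]
        linarith [Nat.lt_floor_add_one ((q : ℝ) * θ)]
      · rw [min_eq_right h] at hj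
        have h3 : (j : ℝ) = q - 1 := by
          rw [hj, Nat.cast_sub hq]
          norm_num
        rw [h3]
        nlinarith
    refine ⟨j, ?_, ?_⟩
    · rw [Finset.mem_range, hj]
      omega
    · rw [Set.mem_preimage, Set.mem_preimage, hE]
      refine ⟨by linarith, by linarith, ?_⟩
      have h3 := hP (q * θ) j h2
      rwa [sub_eq_neg_add] at h3
  refine (measure_mono h1).trans ((measure_biUnion_finset_le _ _).trans ?_)
  have h2 : ∀ j ∈ range q,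
      volume ((fun θ : ℝ => (q : ℝ) * θ) ⁻¹' ((fun u : ℝ => -(j : ℝ) + u) ⁻¹' E)) =
        ENNReal.ofReal ((q : ℝ)⁻¹) * volume E := by
    intro j _
    rw [Real.volume_preimage_mul_left hq0.ne', measure_preimage_add, abs_of_pos (by positivity)]
  rw [Finset.sum_congr rfl h2, Finset.sum_const, Finset.card_range, nsmul_eq_mul, ← mul_assoc]
  have h3 : (q : ENNReal) * ENNReal.ofReal ((q : ℝ)⁻¹) = 1 := by
    rw [← ENNReal.ofReal_natCast, ← ENNReal.ofReal_mul hq0.le, mul_inv_cancel₀ hq0.ne',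
      ENNReal.ofReal_one]
  rw [h3, one_mul]

/-- the law of `a + q t`, `t ∈ s` -/
noncomputable def lv (a q : ℕ) (s : Finset ℕ) (n : ℕ) : ℝ :=
  ((s.filter (fun t => a + q * t = n)).card : ℝ) / s.card

theorem lv_nonneg (a q : ℕ) (s : Finset ℕ) (n : ℕ) : 0 ≤ lv a q s n := by unfold lv; positivity

theorem lv_mem {a q : ℕ} {s : Finset ℕ} {n : ℕ} (h : lv a q s n ≠ 0) : n ≡ a [MOD q] := by
  unfold lv at h
  have h1 : (s.filter (fun t => a + q * t = n)).Nonempty := by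
    rw [← Finset.card_pos]
    by_contra hc
    have : (s.filter (fun t => a + q * t = n)).card = 0 := by omega
    rw [this] at h
    simp at h
  obtain ⟨m, hm⟩ := h1
  rw [Finset.mem_filter] at hm
  rw [← hm.2]
  exact (Nat.modEq_iff_dvd' (by omega)).2 (by simp) |>.symm

theorem sum_lv {E : Type*} [Semiring E] [Module ℝ E] [IsScalarTower ℝ E E] (a q : ℕ)
    (s : Finset ℕ) (X : ℕ) (hX : ∀ t ∈ s, a + q * t ∈ Icc 1 X) (f : ℕ → E) :
    ∑ n ∈ Icc 1 X, lv a q s n • f n = (1 / (s.card : ℝ)) • ∑ t ∈ s, f (a + q * t) := by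
  have h1 : ∀ n ∈ Icc 1 X, lv a q s n • f n = (1 / (s.card : ℝ)) •
      ∑ t ∈ s.filter (fun t => a + q * t = n), f (a + q * t) := by
    intro n _
    unfold lv
    have h2 : ∑ t ∈ s.filter (fun t => a + q * t = n), f (a + q * t) =
        ((s.filter (fun t => a + q * t = n)).card : ℝ) • f n := by
      rw [Finset.sum_congr rfl (fun m hm => by rw [(Finset.mem_filter.1 hm).2] :
        ∀ m ∈ s.filter (fun t => a + q * t = n), f (a + q * m) = f n),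
        Finset.sum_const, ← Nat.cast_smul_eq_nsmul ℝ]
    rw [h2, smul_smul]
    congr 1
    ring
  rw [Finset.sum_congr rfl h1, ← Finset.smul_sum]
  congr 1
  exact Finset.sum_fiberwise_of_maps_to hX _

/-- the exponential sum over a finite set -/
noncomputable def es (s : Finset ℕ) (θ : ℝ) : ℂ :=
  ∑ t ∈ s, Complex.exp (2 * Real.pi * (t * θ : ℝ) * Complex.I)

theorem es_sub (s : Finset ℕ) (θ : ℝ) (j : ℕ) : es s (θ - j) = es s θ := by
  unfold es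
  refine Finset.sum_congr rfl fun t _ => ?_
  have h1 : (2 * Real.pi * ((t : ℝ) * (θ - j) : ℝ) * Complex.I : ℂ) =
      2 * Real.pi * ((t : ℝ) * θ : ℝ) * Complex.I - ((t * j : ℕ) : ℤ) * (2 * Real.pi * Complex.I) := by
    push_cast
    ring
  rw [h1, Complex.exp_sub, Complex.exp_int_mul_two_pi_mul_I, div_one]

theorem norm_lv (a q : ℕ) (s : Finset ℕ) (X : ℕ) (hX : ∀ t ∈ s, a + q * t ∈ Icc 1 X) (θ : ℝ) :
    ‖∑ n ∈ Icc 1 X, (lv a q s n : ℂ) *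
      Complex.exp (2 * Real.pi * (n * θ : ℝ) * Complex.I)‖ = ‖es s (q * θ)‖ / s.card := by
  have h1 : ∑ n ∈ Icc 1 X, (lv a q s n : ℂ) *
      Complex.exp (2 * Real.pi * (n * θ : ℝ) * Complex.I) =
      ∑ n ∈ Icc 1 X, lv a q s n • Complex.exp (2 * Real.pi * (n * θ : ℝ) * Complex.I) :=
    Finset.sum_congr rfl fun n _ => by rw [Complex.real_smul]
  rw [h1, sum_lv a q s X hX]
  have h2 : ∑ t ∈ s, Complex.exp (2 * Real.pi * (((a + q * t : ℕ) : ℝ) * θ : ℝ) *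
      Complex.I) = Pool.Agent.Lib.MP_5349b0_nt.SZ2.e (a * θ) * es s (q * θ) := by
    unfold es
    rw [Finset.mul_sum]
    refine Finset.sum_congr rfl fun m _ => ?_
    unfold Pool.Agent.Lib.MP_5349b0_nt.SZ2.e
    rw [← Complex.exp_add]
    congr 1
    push_cast
    ring
  rw [h2, norm_smul, norm_mul, Pool.Agent.Lib.MP_5349b0_nt.SZ2.norm_e, one_mul, Real.norm_eq_abs,
    abs_of_nonneg (by positivity)]
  ring

/-- the exponent -/
private theorem expo (κ ε ε₀ : ℝ) (hκ : 1 ≤ κ) (hε : 0 < ε) (h0 : 0 < ε₀) (h : (κ + 1) ^ 2 * ε₀ ≤ ε) :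
    (κ - ε) * (1 - κ / (κ + 1) + ε₀) ≤ κ / (κ + 1) - ε₀ := by
  have hk : 0 < κ + 1 := by linarith
  have h1 : 1 - κ / (κ + 1) = 1 / (κ + 1) := by
    field_simp
    ring
  have h2 : κ / (κ + 1) = κ * (1 / (κ + 1)) := by ring
  have h3 : (κ + 1) * ε₀ ≤ ε * (1 / (κ + 1)) := by
    rw [mul_one_div, le_div_iff₀ hk]
    nlinarith
  rw [h1, h2]
  have h4 : 0 < ε * ε₀ := mul_pos hε h0
  nlinarith

open Classical in
/-- **almost all even members of `a + q s`, `s` a finite set with small large spectrum** -/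
theorem sets (F : ℕ → Prop) (κ : ℕ) (hκ : 1 ≤ κ)
    (H : ∀ ε₀ : ℝ, 0 < ε₀ → ∀ A : ℕ, ∃ B : ℕ, ∀ K : ℕ, ∃ X₀ : ℕ, ∀ X : ℕ, X₀ ≤ X →
      ∀ q : ℕ, 1 ≤ q → (q : ℝ) ≤ (X : ℝ) ^ ((κ : ℝ) / (κ + 1) - ε₀) →
      ∀ a : ℕ, (Nat.gcd a q : ℝ) ≤ Real.log X ^ K →
      ∀ ξ : ℕ → ℝ, (∀ n, 0 ≤ ξ n) → (∀ n, ξ n ≠ 0 → n ≡ a [MOD q]) → ∑ n ∈ Icc 1 X, ξ n = 1 →
      volume {θ : ℝ | 0 ≤ θ ∧ θ ≤ 1 ∧ 1 / Real.log X ^ B <
        ‖∑ n ∈ Icc 1 X, (ξ n : ℂ) * Complex.exp (2 * Real.pi * (n * θ : ℝ) * Complex.I)‖} ≤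
        ENNReal.ofReal (q * Real.log X ^ K / X) →
      ∑ n ∈ (Icc 1 X).filter (fun n : ℕ => Even n ∧ F n), ξ n ≤ 1 / Real.log X ^ A)
    (ε : ℝ) (hε : 0 < ε) (A : ℕ) :
    ∃ B₀ : ℕ, ∀ B : ℕ, B₀ ≤ B → ∀ K L : ℕ, ∃ D₀ : ℕ, ∀ D : ℕ, D₀ ≤ D → ∀ s : Finset ℕ,
      s.Nonempty → (∀ t ∈ s, t ≤ D) →
      volume {θ : ℝ | 0 ≤ θ ∧ θ ≤ 1 ∧ (s.card : ℝ) / Real.log D ^ B < ‖es s θ‖} ≤
        ENNReal.ofReal (Real.log D ^ K / D) →
      ∀ q : ℕ, 1 ≤ q → (q : ℝ) ≤ (D : ℝ) ^ (κ - ε) → ∀ a : ℕ, 1 ≤ a → a ≤ q * D →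
      (Nat.gcd a q : ℝ) ≤ Real.log D ^ L →
      ((s.filter (fun t => Even (a + q * t) ∧ F (a + q * t))).card : ℝ) ≤
        s.card / Real.log D ^ A := by
  have hκr : (1 : ℝ) ≤ κ := by exact_mod_cast hκ
  obtain ⟨ε₀, hε₀⟩ : ∃ ε₀ : ℝ, ε₀ = min (ε / ((κ : ℝ) + 1) ^ 2) (1 / 4) := ⟨_, rfl⟩
  have hε0 : 0 < ε₀ := by rw [hε₀]; exact lt_min (by positivity) (by norm_num)
  have hε1 : ((κ : ℝ) + 1) ^ 2 * ε₀ ≤ ε := by
    have h1 : ε₀ ≤ ε / ((κ : ℝ) + 1) ^ 2 := by rw [hε₀]; exact min_le_left _ _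
    rw [le_div_iff₀ (by positivity)] at h1
    linarith
  have hε2 : ε₀ ≤ 1 / 4 := by rw [hε₀]; exact min_le_right _ _
  have hκ2 : (1 : ℝ) / 2 ≤ (κ : ℝ) / (κ + 1) := by
    rw [div_le_div_iff₀ (by norm_num) (by linarith)]
    linarith
  obtain ⟨B₁, hB₁⟩ := H ε₀ hε0 A
  refine ⟨B₁ + 1, fun B hBB K L => ?_⟩
  obtain ⟨X₀, hX₀⟩ := hB₁ (K + 1 + L)
  obtain ⟨D₂, hD₂⟩ := eventually_atTop.1
    ((Real.tendsto_log_atTop.comp tendsto_natCast_atTop_atTop).eventually_ge_atTop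
      (((κ : ℝ) + 3) ^ B₁ + 2) : ∀ᶠ D : ℕ in atTop,
        (((κ : ℝ) + 3) ^ B₁ + 2) ≤ (Real.log ∘ (Nat.cast : ℕ → ℝ)) D)
  refine ⟨max D₂ (max X₀ 2), fun D hD s hs hsD hspec q hq hqD a ha1 ha hgcd => ?_⟩
  simp only [max_le_iff] at hD
  obtain ⟨hDD2, hDX, hD2⟩ := hD
  have hlD : (((κ : ℝ) + 3) ^ B₁ + 2) ≤ Real.log D := hD₂ D hDD2
  have hDr : (2 : ℝ) ≤ D := by exact_mod_cast hD2
  have hD0 : (0 : ℝ) < D := by linarith
  have hqr : (1 : ℝ) ≤ q := by exact_mod_cast hq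
  have hcB : (0 : ℝ) < ((κ : ℝ) + 3) ^ B₁ := by positivity
  have hlD2 : 2 ≤ Real.log D := by linarith
  have hs0 : (0 : ℝ) < s.card := by exact_mod_cast Finset.card_pos.2 hs
  -- the range `X`
  obtain ⟨X, hX⟩ : ∃ X : ℕ, X = 2 * (q * D) := ⟨_, rfl⟩
  have hXr : (X : ℝ) = 2 * (q * D) := by rw [hX]; push_cast; ring
  have hqDX : (q : ℝ) * D ≤ X := by
    rw [hXr]
    have : 0 ≤ (q : ℝ) * D := by positivity
    linarith
  have hDX' : D ≤ X := by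
    rw [hX]
    nlinarith
  have hDXr : (D : ℝ) ≤ X := by exact_mod_cast hDX'
  have hX0 : (0 : ℝ) < X := by linarith
  have hlDX : Real.log D ≤ Real.log X := Real.log_le_log hD0 hDXr
  have hlX2 : 2 ≤ Real.log X := hlD2.trans hlDX
  have hlX : Real.log X ≤ ((κ : ℝ) + 3) * Real.log D := by
    have h1 : (q : ℝ) ≤ (D : ℝ) ^ (κ : ℝ) :=
      hqD.trans (Real.rpow_le_rpow_of_exponent_le (by linarith) (by linarith))
    rw [Real.rpow_natCast] at h1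
    have h3 : (X : ℝ) ≤ (D : ℝ) ^ (κ + 3) := by
      calc (X : ℝ) = 2 * (q * D) := hXr
        _ ≤ D * ((D : ℝ) ^ κ * D) := by
            apply mul_le_mul hDr _ (by positivity) (by positivity)
            exact mul_le_mul_of_nonneg_right h1 hD0.le
        _ = (D : ℝ) ^ (κ + 2) := by ring
        _ ≤ (D : ℝ) ^ (κ + 3) := pow_le_pow_right₀ (by linarith) (by omega)
    calc Real.log X ≤ Real.log ((D : ℝ) ^ (κ + 3)) := Real.log_le_log hX0 h3
      _ = ((κ : ℝ) + 3) * Real.log D := by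
          rw [Real.log_pow]
          push_cast
          ring
  have hmaps : ∀ t ∈ s, a + q * t ∈ Icc 1 X := by
    intro t ht
    rw [Finset.mem_Icc, hX]
    have h2 := Nat.mul_le_mul_left q (hsD t ht)
    constructor
    · omega
    · omega
  -- the modulus
  have hqX : (q : ℝ) ≤ (X : ℝ) ^ ((κ : ℝ) / (κ + 1) - ε₀) := by
    have hs : 0 ≤ 1 - (κ : ℝ) / (κ + 1) + ε₀ := by
      have : (κ : ℝ) / (κ + 1) ≤ 1 := by
        rw [div_le_one (by linarith)]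
        linarith
      linarith
    have h1 : (q : ℝ) ^ (1 - (κ : ℝ) / (κ + 1) + ε₀) ≤ (D : ℝ) ^ ((κ : ℝ) / (κ + 1) - ε₀) := by
      calc (q : ℝ) ^ (1 - (κ : ℝ) / (κ + 1) + ε₀) ≤ ((D : ℝ) ^ (κ - ε)) ^ (1 - (κ : ℝ) / (κ + 1) + ε₀) :=
            Real.rpow_le_rpow (by linarith) hqD hs
        _ = (D : ℝ) ^ ((κ - ε) * (1 - (κ : ℝ) / (κ + 1) + ε₀)) := by rw [← Real.rpow_mul hD0.le]
        _ ≤ (D : ℝ) ^ ((κ : ℝ) / (κ + 1) - ε₀) :=
            Real.rpow_le_rpow_of_exponent_le (by linarith) (expo κ ε ε₀ hκr hε hε0 hε1)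
    have h2 : (q : ℝ) = (q : ℝ) ^ (1 - (κ : ℝ) / (κ + 1) + ε₀) * (q : ℝ) ^ ((κ : ℝ) / (κ + 1) - ε₀) := by
      rw [← Real.rpow_add (by linarith)]
      norm_num
    calc (q : ℝ) = (q : ℝ) ^ (1 - (κ : ℝ) / (κ + 1) + ε₀) * (q : ℝ) ^ ((κ : ℝ) / (κ + 1) - ε₀) := h2
      _ ≤ (D : ℝ) ^ ((κ : ℝ) / (κ + 1) - ε₀) * (q : ℝ) ^ ((κ : ℝ) / (κ + 1) - ε₀) :=
          mul_le_mul_of_nonneg_right h1 (Real.rpow_nonneg (by linarith) _)
      _ = (q * (D : ℝ)) ^ ((κ : ℝ) / (κ + 1) - ε₀) := by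
          rw [Real.mul_rpow (by linarith) hD0.le]
          ring
      _ ≤ (X : ℝ) ^ ((κ : ℝ) / (κ + 1) - ε₀) :=
          Real.rpow_le_rpow (by positivity) hqDX (by linarith)
  have hgcd' : (Nat.gcd a q : ℝ) ≤ Real.log X ^ (K + 1 + L) := by
    calc (Nat.gcd a q : ℝ) ≤ Real.log D ^ L := hgcd
      _ ≤ Real.log X ^ L := pow_le_pow_left₀ (by linarith) hlDX L
      _ ≤ Real.log X ^ (K + 1 + L) := pow_le_pow_right₀ (by linarith) (by omega)
  -- the total mass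
  have hone : ∑ n ∈ Icc 1 X, lv a q s n = 1 := by
    have h1 := sum_lv a q s X hmaps (fun _ => (1 : ℝ))
    simp only [smul_eq_mul, mul_one, Finset.sum_const, nsmul_eq_mul] at h1
    rw [h1]
    field_simp
  -- the large spectrum
  have hlXB : (0 : ℝ) < Real.log X ^ B₁ := by
    have : 0 < Real.log X := by linarith
    positivity
  have hlDB : (0 : ℝ) < Real.log D ^ B := by
    have : 0 < Real.log D := by linarith
    positivity
  have hXB : Real.log X ^ B₁ ≤ Real.log D ^ B := by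
    calc Real.log X ^ B₁ ≤ (((κ : ℝ) + 3) * Real.log D) ^ B₁ :=
          pow_le_pow_left₀ (by linarith) hlX B₁
      _ = ((κ : ℝ) + 3) ^ B₁ * Real.log D ^ B₁ := mul_pow _ _ _
      _ ≤ Real.log D * Real.log D ^ B₁ :=
          mul_le_mul_of_nonneg_right (by linarith) (by positivity)
      _ = Real.log D ^ (B₁ + 1) := by rw [pow_succ']
      _ ≤ Real.log D ^ B := pow_le_pow_right₀ (by linarith) hBB
  have hvol : volume {θ : ℝ | 0 ≤ θ ∧ θ ≤ 1 ∧ 1 / Real.log X ^ B₁ <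
      ‖∑ n ∈ Icc 1 X, (lv a q s n : ℂ) *
        Complex.exp (2 * Real.pi * (n * θ : ℝ) * Complex.I)‖} ≤
      ENNReal.ofReal (q * Real.log X ^ (K + 1 + L) / X) := by
    have hsub : {θ : ℝ | 0 ≤ θ ∧ θ ≤ 1 ∧ 1 / Real.log X ^ B₁ <
        ‖∑ n ∈ Icc 1 X, (lv a q s n : ℂ) *
          Complex.exp (2 * Real.pi * (n * θ : ℝ) * Complex.I)‖} ⊆
        {θ : ℝ | 0 ≤ θ ∧ θ ≤ 1 ∧ (s.card : ℝ) / Real.log D ^ B < ‖es s (q * θ)‖} := by
      rintro θ ⟨h0, h1, h2⟩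
      refine ⟨h0, h1, ?_⟩
      rw [norm_lv a q s X hmaps θ, lt_div_iff₀ hs0] at h2
      refine lt_of_le_of_lt ?_ h2
      rw [div_mul_eq_mul_div, one_mul]
      exact div_le_div_of_nonneg_left hs0.le hlXB hXB
    refine (measure_mono hsub).trans ((vol_mul (fun θ => (s.card : ℝ) / Real.log D ^ B <
      ‖es s θ‖) (fun θ j h => by rw [es_sub]; exact h) q hq).trans (hspec.trans ?_))
    apply ENNReal.ofReal_le_ofReal
    rw [div_le_div_iff₀ hD0 hX0]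
    obtain ⟨m, hm⟩ : ∃ m : ℝ, m = Real.log X := ⟨_, rfl⟩
    rw [← hm] at hlX2 hlDX ⊢
    rw [hXr]
    have h1 : Real.log D ^ K ≤ m ^ K := pow_le_pow_left₀ (by linarith) hlDX K
    have h2 : 2 * m ^ K ≤ m ^ (K + 1 + L) := by
      calc 2 * m ^ K ≤ m * m ^ K :=
            mul_le_mul_of_nonneg_right hlX2 (by positivity)
        _ = m ^ (K + 1) := by rw [pow_succ']
        _ ≤ _ := pow_le_pow_right₀ (by linarith) (by omega)
    have h3 : 0 ≤ (q : ℝ) * D := by positivity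
    calc Real.log D ^ K * (2 * (q * (D : ℝ))) = (2 * Real.log D ^ K) * (q * D) := by ring
      _ ≤ m ^ (K + 1 + L) * (q * D) := by
          apply mul_le_mul_of_nonneg_right _ h3
          linarith
      _ = _ := by ring
  have hfin := hX₀ X (hDX.trans hDX') q hq hqX a hgcd' (lv a q s) (lv_nonneg a q s)
    (fun n hn => lv_mem hn) hone hvol
  -- conclusion
  have hcard : ∑ n ∈ (Icc 1 X).filter (fun n : ℕ => Even n ∧ F n), lv a q s n =
      (1 / (s.card : ℝ)) * ((s.filter (fun t =>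
        Even (a + q * t) ∧ F (a + q * t))).card : ℝ) := by
    have h1 := sum_lv a q s X hmaps (fun n => if Even n ∧ F n then (1 : ℝ) else 0)
    simp only [smul_eq_mul, mul_ite, mul_one, mul_zero] at h1
    rw [Finset.sum_filter, h1]
    congr 1
    rw [Finset.sum_ite, Finset.sum_const_zero, add_zero, Finset.sum_const, nsmul_eq_mul, mul_one]
  rw [hcard, one_div, inv_mul_le_iff₀ hs0] at hfin
  refine hfin.trans ?_
  have h4 : Real.log D ^ A ≤ Real.log X ^ A := pow_le_pow_left₀ (by linarith) hlDX A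
  have h5 : 0 < Real.log D ^ A := by
    have : 0 < Real.log D := by linarith
    positivity
  rw [mul_one_div]
  exact div_le_div_of_nonneg_left hs0.le h5 h4

end Pool.MP_dd84fd_nt.ET
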