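import Pool.Agent.Lib.MP_dd84fd_nt.ET.Set
import Pool.Agent.Lib.MP_dd84fd_nt.Cheb

/-!
# The sizes, for `y = ⌊(log D) ^ C⌋`
-/

set_option autoImplicit false

namespace Pool.MP_dd84fd_nt.ET

open Finset Filter

theorem log2_le (D : ℕ) (hD : 1 ≤ D) : (Nat.log 2 D : ℝ) ≤ 2 * Real.log D := by
  have h1 : 2 ^ Nat.log 2 D ≤ D := Nat.pow_log_le_self 2 (by omega)
  have h2 : (2 : ℝ) ^ Nat.log 2 D ≤ D := by exact_mod_cast h1
  have h3 := Real.log_le_log (by positivity) h2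
  rw [Real.log_pow] at h3
  have h4 := Real.log_two_gt_d9
  have h5 : (0 : ℝ) ≤ Nat.log 2 D := Nat.cast_nonneg _
  nlinarith

private theorem PS_big (D y : ℕ) (hD : 1 ≤ D) :
    ((Pool.Agent.Lib.MP_dd84fd_nt.Cheb.P4 y).card : ℝ) ≤ (PS D y).card + 2 * Real.log D := by
  have h1 : Pool.Agent.Lib.MP_dd84fd_nt.Cheb.P4 y ⊆ PS D y ∪ D.primeFactors := by
    intro p hp
    unfold Pool.Agent.Lib.MP_dd84fd_nt.Cheb.P4 at hp
    rw [mem_filter, mem_Ioc] at hp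
    rw [mem_union]
    by_cases h : p ∣ D
    · right
      rw [Nat.mem_primeFactors]
      exact ⟨hp.2, h, by omega⟩
    · left
      unfold PS
      rw [mem_filter, mem_Icc]
      exact ⟨⟨hp.2.one_le, hp.1.2⟩, hp.2, h⟩
  have h2 := (Finset.card_le_card h1).trans (Finset.card_union_le _ _)
  have h3 : (Pool.Agent.Lib.MP_dd84fd_nt.Cheb.P4 y).card ≤ (PS D y).card + Nat.log 2 D :=
    h2.trans (Nat.add_le_add_left (card_pf D hD) _)
  have h4 : ((Pool.Agent.Lib.MP_dd84fd_nt.Cheb.P4 y).card : ℝ) ≤ (PS D y).card + Nat.log 2 D := by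
    exact_mod_cast h3
  have h5 := log2_le D hD
  linarith

theorem tendsto_logn : Tendsto (fun D : ℕ => Real.log (D : ℝ)) atTop atTop :=
  Real.tendsto_log_atTop.comp tendsto_natCast_atTop_atTop

/-- the sizes of `y` and of the set of primes -/
theorem size (C : ℕ) (hC : 3 ≤ C) : ∃ D0 : ℕ, ∀ D : ℕ, D0 ≤ D →
    1 ≤ ⌊Real.log D ^ C⌋₊ ∧ Real.log D ^ C / 2 ≤ (⌊Real.log D ^ C⌋₊ : ℝ) ∧
    (⌊Real.log D ^ C⌋₊ : ℝ) ≤ Real.log D ^ C ∧
    Real.log D ^ (C - 1) ≤ ((PS D ⌊Real.log D ^ C⌋₊).card : ℝ) ∧ ⌊Real.log D ^ C⌋₊ ^ 3 < D := by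
  have ht : Tendsto (fun D : ℕ => ⌊Real.log (D : ℝ) ^ C⌋₊) atTop atTop :=
    tendsto_nat_floor_atTop.comp ((tendsto_pow_atTop (by omega)).comp tendsto_logn)
  have e1 := ht.eventually Pool.Agent.Lib.MP_dd84fd_nt.Cheb.card_P4
  have e2 : ∀ᶠ D : ℕ in atTop, 16 * (C : ℝ) * Real.log (Real.log D) ≤ Real.log D := by
    have h1 := Real.isLittleO_log_id_atTop.bound (c := 1 / (16 * (C : ℝ) + 1)) (by positivity)
    have h2 := tendsto_logn.eventually h1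
    filter_upwards [h2, tendsto_logn.eventually_ge_atTop 1] with D hD hD1
    rw [Real.norm_eq_abs, Real.norm_eq_abs, id, abs_of_nonneg (Real.log_nonneg hD1),
      abs_of_nonneg (by linarith : (0 : ℝ) ≤ Real.log D), one_div, inv_mul_eq_div,
      le_div_iff₀ (by positivity)] at hD
    have h3 := Real.log_nonneg hD1
    nlinarith
  have e3 : ∀ᶠ D : ℕ in atTop, Real.log (D : ℝ) ^ (3 * C) < D := by
    have h1 : (fun x : ℝ => Real.log x ^ (3 * C)) =o[atTop] id := Real.isLittleO_pow_log_id_atTop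
    have h2 := tendsto_natCast_atTop_atTop.eventually (h1.bound (c := 1 / 2) (by norm_num))
    filter_upwards [h2, eventually_ge_atTop 1] with D hD hD1
    have hDr : (1 : ℝ) ≤ D := by exact_mod_cast hD1
    rw [Real.norm_eq_abs, Real.norm_eq_abs, id, abs_of_nonneg (by positivity : (0 : ℝ) ≤ (D : ℝ))] at hD
    have h3 := le_abs_self (Real.log (D : ℝ) ^ (3 * C))
    linarith
  obtain ⟨D0, hD0⟩ := eventually_atTop.1 (((e1.and e2).and e3).and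
    ((tendsto_logn.eventually_ge_atTop 4).and (eventually_ge_atTop 1)))
  refine ⟨D0, fun D hD => ?_⟩
  obtain ⟨⟨⟨h1, h2⟩, h3⟩, h4, h5⟩ := hD0 D hD
  obtain ⟨l, hl⟩ : ∃ l : ℝ, l = Real.log D := ⟨_, rfl⟩
  rw [← hl] at h1 h2 h3 h4
  rw [← hl]
  have hl1 : 1 ≤ l := by linarith
  have hlC : 4 ≤ l ^ C := h4.trans (le_self_pow₀ hl1 (by omega))
  have hfl : (⌊l ^ C⌋₊ : ℝ) ≤ l ^ C := Nat.floor_le (by positivity)
  have hfl2 : l ^ C - 1 < (⌊l ^ C⌋₊ : ℝ) := by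
    have := Nat.lt_floor_add_one (l ^ C)
    linarith
  have hhalf : l ^ C / 2 ≤ (⌊l ^ C⌋₊ : ℝ) := by linarith
  have hy1 : 1 ≤ ⌊l ^ C⌋₊ := by
    have : (1 : ℝ) ≤ (⌊l ^ C⌋₊ : ℝ) := by linarith
    exact_mod_cast this
  refine ⟨hy1, hhalf, hfl, ?_, ?_⟩
  · have h6 := PS_big D ⌊l ^ C⌋₊ h5
    rw [← hl] at h6
    obtain ⟨P, hP⟩ : ∃ P : ℝ, P = ((Pool.Agent.Lib.MP_dd84fd_nt.Cheb.P4 ⌊l ^ C⌋₊).card : ℝ) := ⟨_, rfl⟩
    rw [← hP] at h1 h6
    have hP0 : 0 ≤ P := by rw [hP]; positivity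
    have h7 : Real.log (⌊l ^ C⌋₊ : ℝ) ≤ C * Real.log l := by
      calc Real.log (⌊l ^ C⌋₊ : ℝ) ≤ Real.log (l ^ C) :=
            Real.log_le_log (by exact_mod_cast hy1) hfl
        _ = C * Real.log l := Real.log_pow _ _
    have h8 : l ^ C / 8 ≤ P * (C * Real.log l) := by
      calc l ^ C / 8 ≤ (⌊l ^ C⌋₊ : ℝ) / 4 := by linarith
        _ ≤ P * Real.log (⌊l ^ C⌋₊ : ℝ) := h1
        _ ≤ P * (C * Real.log l) := mul_le_mul_of_nonneg_left h7 hP0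
    have h9 : P * (C * Real.log l) ≤ P * (l / 16) := by
      apply mul_le_mul_of_nonneg_left _ hP0
      linarith
    have h10 : l ^ C = l * l ^ (C - 1) := by
      rw [← pow_succ']
      congr 1
      omega
    have h11 : 2 * l ^ (C - 1) ≤ P := by
      have h12 : l * (2 * l ^ (C - 1)) ≤ l * P := by
        rw [h10] at h8
        nlinarith
      exact le_of_mul_le_mul_left h12 (by linarith)
    have h13 : 2 * l ≤ l ^ (C - 1) := by
      have h14 : l ^ 2 ≤ l ^ (C - 1) := pow_le_pow_right₀ hl1 (by omega)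
      nlinarith
    linarith
  · have h6 : (⌊l ^ C⌋₊ : ℝ) ^ 3 ≤ l ^ (3 * C) := by
      calc (⌊l ^ C⌋₊ : ℝ) ^ 3 ≤ (l ^ C) ^ 3 := pow_le_pow_left₀ (by positivity) hfl 3
        _ = l ^ (3 * C) := by rw [← pow_mul]; congr 1; ring
    have h7 : ((⌊l ^ C⌋₊ ^ 3 : ℕ) : ℝ) < (D : ℝ) := by
      push_cast
      linarith
    exact_mod_cast h7

end Pool.MP_dd84fd_nt.ET
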