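import Pool.Agent.Lib.MP_dd84fd_nt.ET.Spec
import Pool.Agent.Lib.MP_dd84fd_nt.ET.Size

/-!
# From random integers with small large spectrum to explicit sets of polylogarithmic size

If a property `F` of the integers `n ≤ X` has probability at most `(log X) ^ (-A)` for every random
integer in a residue class modulo `q ≤ X ^ (κ/(κ+1) - ε₀)` whose large spectrum has measure at most
`q (log X) ^ K / X`, then for every large `D` at most a `(log D) ^ (-A)` proportion of the `t` in the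
set `tt D y`, `y = ⌊(log D) ^ C⌋`, are such that `a + q t` has the property `F`, for all
`q ≤ D ^ (κ - ε)` and all `1 ≤ a ≤ q D` with `(a, q) ≤ (log D) ^ L`.
-/

set_option autoImplicit false

namespace Pool.MP_dd84fd_nt.ET

open Finset MeasureTheory Filter

/-- the exponent -/
private theorem expo (κ ε ε₀ : ℝ) (hκ : 1 ≤ κ) (hε : 0 < ε) (h0 : 0 < ε₀) (h : (κ + 1) ^ 2 * ε₀ ≤ ε) :
    (κ - ε) * (1 - κ / (κ + 1) + ε₀) ≤ κ / (κ + 1) - ε₀ := by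
  have hk : 0 < κ + 1 := by linarith
  have h1 : 1 - κ / (κ + 1) = 1 / (κ + 1) := by
    field_simp
    ring
  have h2 : κ / (κ + 1) = κ * (1 / (κ + 1)) := by ring
  have h3 : (κ + 1) * ε₀ ≤ ε * (1 / (κ + 1)) := by
    rw [mul_one_div, le_div_iff₀ hk]
    nlinarith
  rw [h1, h2]
  have h4 : 0 < ε * ε₀ := mul_pos hε h0
  nlinarith

private theorem small (ℓ m y P lg c1 : ℝ) (B C : ℕ) (hC : B + 4 ≤ C) (hℓ : 3 ≤ ℓ) (hm1 : 1 ≤ m)
    (hm : m ≤ c1 * ℓ) (hy : ℓ ^ C / 2 ≤ y) (hP : ℓ ^ (C - 1) ≤ P)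
    (hlg : lg ≤ 2 * ℓ) (hbig : 24 * c1 ^ B ≤ ℓ) :
    (1 / y + 2 * lg / P) * (3 + ℓ) ≤ 1 / m ^ B / 2 := by
  have hℓ0 : 0 < ℓ := by linarith
  have hpC : 0 < ℓ ^ (C - 1) := by positivity
  have e1 : ℓ ^ C = ℓ * ℓ ^ (C - 1) := by
    rw [← pow_succ']
    congr 1
    omega
  have hy0 : 0 < y := lt_of_lt_of_le (by positivity) hy
  have hP0 : 0 < P := lt_of_lt_of_le hpC hP
  have h1 : 1 / y ≤ 2 / ℓ ^ (C - 1) := by
    rw [div_le_div_iff₀ hy0 hpC]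
    have : ℓ ^ (C - 1) ≤ ℓ ^ C := by rw [e1]; nlinarith
    linarith
  have h2 : 2 * lg / P ≤ 4 * ℓ / ℓ ^ (C - 1) := by
    apply div_le_div₀ (by positivity) (by linarith) hpC hP
  have h3 : 1 / y + 2 * lg / P ≤ 6 * ℓ / ℓ ^ (C - 1) := by
    have h4 : 2 / ℓ ^ (C - 1) + 4 * ℓ / ℓ ^ (C - 1) ≤ 6 * ℓ / ℓ ^ (C - 1) := by
      rw [← add_div]
      apply div_le_div_of_nonneg_right _ hpC.le
      linarith
    linarith
  have h5 : (1 / y + 2 * lg / P) * (3 + ℓ) ≤ 6 * ℓ / ℓ ^ (C - 1) * (2 * ℓ) := by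
    apply mul_le_mul h3 (by linarith) (by positivity) (by positivity)
  refine h5.trans ?_
  have hmB : m ^ B ≤ c1 ^ B * ℓ ^ B := by
    calc m ^ B ≤ (c1 * ℓ) ^ B := pow_le_pow_left₀ (by linarith) hm B
      _ = c1 ^ B * ℓ ^ B := mul_pow _ _ _
  have hmB0 : 0 < m ^ B := by positivity
  have e2 : 6 * ℓ / ℓ ^ (C - 1) * (2 * ℓ) = 12 * ℓ ^ 2 / ℓ ^ (C - 1) := by ring
  rw [e2, div_div, div_le_div_iff₀ hpC (by positivity)]
  have h6 : ℓ ^ (B + 3) ≤ ℓ ^ (C - 1) := pow_le_pow_right₀ (by linarith) (by omega)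
  have e3 : ℓ ^ (B + 3) = ℓ ^ B * ℓ ^ 2 * ℓ := by ring
  calc 12 * ℓ ^ 2 * (m ^ B * 2) ≤ 12 * ℓ ^ 2 * (c1 ^ B * ℓ ^ B * 2) := by gcongr
    _ = (24 * c1 ^ B) * (ℓ ^ B * ℓ ^ 2) := by ring
    _ ≤ ℓ * (ℓ ^ B * ℓ ^ 2) := by
        apply mul_le_mul_of_nonneg_right hbig (by positivity)
    _ = ℓ ^ (B + 3) := by rw [e3]; ring
    _ ≤ ℓ ^ (C - 1) := h6
    _ = 1 * ℓ ^ (C - 1) := (one_mul _).symm

open Classical in
/-- **almost all even members of `a + q T`, `T` an explicit set of polylogarithmic size** -/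
theorem explicit (F : ℕ → Prop) (κ : ℕ) (hκ : 1 ≤ κ)
    (H : ∀ ε₀ : ℝ, 0 < ε₀ → ∀ A : ℕ, ∃ B : ℕ, ∀ K : ℕ, ∃ X₀ : ℕ, ∀ X : ℕ, X₀ ≤ X →
      ∀ q : ℕ, 1 ≤ q → (q : ℝ) ≤ (X : ℝ) ^ ((κ : ℝ) / (κ + 1) - ε₀) →
      ∀ a : ℕ, (Nat.gcd a q : ℝ) ≤ Real.log X ^ K →
      ∀ ξ : ℕ → ℝ, (∀ n, 0 ≤ ξ n) → (∀ n, ξ n ≠ 0 → n ≡ a [MOD q]) → ∑ n ∈ Icc 1 X, ξ n = 1 →
      volume {θ : ℝ | 0 ≤ θ ∧ θ ≤ 1 ∧ 1 / Real.log X ^ B <
        ‖∑ n ∈ Icc 1 X, (ξ n : ℂ) * Complex.exp (2 * Real.pi * (n * θ : ℝ) * Complex.I)‖} ≤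
        ENNReal.ofReal (q * Real.log X ^ K / X) →
      ∑ n ∈ (Icc 1 X).filter (fun n : ℕ => Even n ∧ F n), ξ n ≤ 1 / Real.log X ^ A)
    (ε : ℝ) (hε : 0 < ε) (A : ℕ) :
    ∃ C₀ : ℕ, ∀ C : ℕ, C₀ ≤ C → ∀ L : ℕ, ∃ D₀ : ℕ, ∀ D : ℕ, D₀ ≤ D → ∀ q : ℕ, 1 ≤ q →
      (q : ℝ) ≤ (D : ℝ) ^ (κ - ε) → ∀ a : ℕ, 1 ≤ a → a ≤ q * D →
      (Nat.gcd a q : ℝ) ≤ Real.log D ^ L →
      (((tt D ⌊Real.log D ^ C⌋₊).filter (fun t => Even (a + q * t) ∧ F (a + q * t))).card : ℝ) ≤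
        (tt D ⌊Real.log D ^ C⌋₊).card / Real.log D ^ A := by
  have hκr : (1 : ℝ) ≤ κ := by exact_mod_cast hκ
  obtain ⟨ε₀, hε₀⟩ : ∃ ε₀ : ℝ, ε₀ = min (ε / ((κ : ℝ) + 1) ^ 2) (1 / 4) := ⟨_, rfl⟩
  have hε0 : 0 < ε₀ := by rw [hε₀]; exact lt_min (by positivity) (by norm_num)
  have hε1 : ((κ : ℝ) + 1) ^ 2 * ε₀ ≤ ε := by
    have h1 : ε₀ ≤ ε / ((κ : ℝ) + 1) ^ 2 := by rw [hε₀]; exact min_le_left _ _
    rw [le_div_iff₀ (by positivity)] at h1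
    linarith
  have hε2 : ε₀ ≤ 1 / 4 := by rw [hε₀]; exact min_le_right _ _
  have hκ2 : (1 : ℝ) / 2 ≤ (κ : ℝ) / (κ + 1) := by
    rw [div_le_div_iff₀ (by norm_num) (by linarith)]
    linarith
  obtain ⟨B, hB⟩ := H ε₀ hε0 (A + 1)
  refine ⟨B + 4, fun C hC L => ?_⟩
  obtain ⟨X₀, hX₀⟩ := hB (B + 1 + L)
  obtain ⟨D₁, hD₁⟩ := size C (by omega)
  obtain ⟨D₂, hD₂⟩ := eventually_atTop.1
    (tendsto_logn.eventually_ge_atTop (24 * ((κ : ℝ) + 3) ^ B + 8))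
  refine ⟨max (max D₁ D₂) (max X₀ 2), fun D hD q hq hqD a ha1 ha hgcd => ?_⟩
  simp only [max_le_iff] at hD
  obtain ⟨⟨hDD1, hDD2⟩, hDX, hD2⟩ := hD
  obtain ⟨hy1, hyl, hyu, hPS, hy3⟩ := hD₁ D hDD1
  have hlD := hD₂ D hDD2
  have hDr : (2 : ℝ) ≤ D := by exact_mod_cast hD2
  have hD0 : (0 : ℝ) < D := by linarith
  have hqr : (1 : ℝ) ≤ q := by exact_mod_cast hq
  obtain ⟨y, hy⟩ : ∃ y : ℕ, y = ⌊Real.log D ^ C⌋₊ := ⟨_, rfl⟩
  rw [← hy] at hy1 hyl hyu hPS hy3 ⊢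
  have hcB : (0 : ℝ) < ((κ : ℝ) + 3) ^ B := by positivity
  have hlD8 : 8 ≤ Real.log D := by linarith
  -- the range `X`
  obtain ⟨X, hX⟩ : ∃ X : ℕ, X = 2 * (q * D) := ⟨_, rfl⟩
  have hXr : (X : ℝ) = 2 * (q * D) := by rw [hX]; push_cast; ring
  have hqDX : (q : ℝ) * D ≤ X := by
    rw [hXr]
    have : 0 ≤ (q : ℝ) * D := by positivity
    linarith
  have hDX' : D ≤ X := by
    rw [hX]
    nlinarith
  have hDXr : (D : ℝ) ≤ X := by exact_mod_cast hDX'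
  have hX0 : (0 : ℝ) < X := by linarith
  have hlDX : Real.log D ≤ Real.log X := Real.log_le_log hD0 hDXr
  have hlX8 : 8 ≤ Real.log X := hlD8.trans hlDX
  have hlX : Real.log X ≤ ((κ : ℝ) + 3) * Real.log D := by
    have h1 : (q : ℝ) ≤ (D : ℝ) ^ (κ : ℝ) :=
      hqD.trans (Real.rpow_le_rpow_of_exponent_le (by linarith) (by linarith))
    rw [Real.rpow_natCast] at h1
    have h3 : (X : ℝ) ≤ (D : ℝ) ^ (κ + 3) := by
      calc (X : ℝ) = 2 * (q * D) := hXr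
        _ ≤ D * ((D : ℝ) ^ κ * D) := by
            apply mul_le_mul hDr _ (by positivity) (by positivity)
            exact mul_le_mul_of_nonneg_right h1 hD0.le
        _ = (D : ℝ) ^ (κ + 2) := by ring
        _ ≤ (D : ℝ) ^ (κ + 3) := pow_le_pow_right₀ (by linarith) (by omega)
    calc Real.log X ≤ Real.log ((D : ℝ) ^ (κ + 3)) := Real.log_le_log hX0 h3
      _ = ((κ : ℝ) + 3) * Real.log D := by
          rw [Real.log_pow]
          push_cast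
          ring
  have hmaps : ∀ x ∈ prs D y, a + q * fr D x.1 x.2 ∈ Icc 1 X := by
    intro x _
    rw [Finset.mem_Icc, hX]
    have h1 := fr_lt D x.1 x.2 (by omega)
    have h2 := Nat.mul_le_mul_left q h1.le
    constructor
    · omega
    · omega
  -- the modulus
  have hqX : (q : ℝ) ≤ (X : ℝ) ^ ((κ : ℝ) / (κ + 1) - ε₀) := by
    have hs : 0 ≤ 1 - (κ : ℝ) / (κ + 1) + ε₀ := by
      have : (κ : ℝ) / (κ + 1) ≤ 1 := by
        rw [div_le_one (by linarith)]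
        linarith
      linarith
    have h1 : (q : ℝ) ^ (1 - (κ : ℝ) / (κ + 1) + ε₀) ≤ (D : ℝ) ^ ((κ : ℝ) / (κ + 1) - ε₀) := by
      calc (q : ℝ) ^ (1 - (κ : ℝ) / (κ + 1) + ε₀) ≤ ((D : ℝ) ^ (κ - ε)) ^ (1 - (κ : ℝ) / (κ + 1) + ε₀) :=
            Real.rpow_le_rpow (by linarith) hqD hs
        _ = (D : ℝ) ^ ((κ - ε) * (1 - (κ : ℝ) / (κ + 1) + ε₀)) := by rw [← Real.rpow_mul hD0.le]
        _ ≤ (D : ℝ) ^ ((κ : ℝ) / (κ + 1) - ε₀) :=
            Real.rpow_le_rpow_of_exponent_le (by linarith) (expo κ ε ε₀ hκr hε hε0 hε1)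
    have h2 : (q : ℝ) = (q : ℝ) ^ (1 - (κ : ℝ) / (κ + 1) + ε₀) * (q : ℝ) ^ ((κ : ℝ) / (κ + 1) - ε₀) := by
      rw [← Real.rpow_add (by linarith)]
      norm_num
    calc (q : ℝ) = (q : ℝ) ^ (1 - (κ : ℝ) / (κ + 1) + ε₀) * (q : ℝ) ^ ((κ : ℝ) / (κ + 1) - ε₀) := h2
      _ ≤ (D : ℝ) ^ ((κ : ℝ) / (κ + 1) - ε₀) * (q : ℝ) ^ ((κ : ℝ) / (κ + 1) - ε₀) :=
          mul_le_mul_of_nonneg_right h1 (Real.rpow_nonneg (by linarith) _)
      _ = (q * (D : ℝ)) ^ ((κ : ℝ) / (κ + 1) - ε₀) := by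
          rw [Real.mul_rpow (by linarith) hD0.le]
          ring
      _ ≤ (X : ℝ) ^ ((κ : ℝ) / (κ + 1) - ε₀) :=
          Real.rpow_le_rpow (by positivity) hqDX (by linarith)
  have hgcd' : (Nat.gcd a q : ℝ) ≤ Real.log X ^ (B + 1 + L) := by
    calc (Nat.gcd a q : ℝ) ≤ Real.log D ^ L := hgcd
      _ ≤ Real.log X ^ L := pow_le_pow_left₀ (by linarith) hlDX L
      _ ≤ Real.log X ^ (B + 1 + L) := pow_le_pow_right₀ (by linarith) (by omega)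
  have hPS1 : 1 ≤ (PS D y).card := by
    have h1 : (1 : ℝ) ≤ Real.log D ^ (C - 1) := one_le_pow₀ (by linarith)
    have h2 : (1 : ℝ) ≤ (PS D y).card := h1.trans hPS
    exact_mod_cast h2
  have hprs1 : 1 ≤ (prs D y).card := by
    rw [card_prs]
    have : 1 ≤ y ^ 2 := Nat.one_le_pow _ _ (by omega)
    exact Nat.mul_pos hPS1 this
  have hprs0 : (0 : ℝ) < (prs D y).card := by exact_mod_cast hprs1
  -- the total mass
  have hone : ∑ n ∈ Icc 1 X, lw a q D y n = 1 := by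
    have h1 := sum_lw a q D y X hmaps (fun _ => (1 : ℝ))
    simp only [smul_eq_mul, mul_one, Finset.sum_const, nsmul_eq_mul] at h1
    rw [h1]
    field_simp
  -- the large spectrum
  obtain ⟨δ, hδ⟩ : ∃ δ : ℝ, δ = 1 / Real.log X ^ B := ⟨_, rfl⟩
  have hlXB : (0 : ℝ) < Real.log X ^ B := by
    have : 0 < Real.log X := by linarith
    positivity
  have hδ0 : 0 < δ := by rw [hδ]; positivity
  have hsm : (1 / y + 2 * (Nat.log 2 D : ℝ) / (PS D y).card) * (3 + Real.log D) ≤ δ / 2 := by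
    rw [hδ]
    exact small (Real.log D) (Real.log X) y (PS D y).card (Nat.log 2 D) ((κ : ℝ) + 3) B C hC
      (by linarith) (by linarith) hlX hyl hPS (log2_le D (by omega)) (by linarith)
  have hvol : volume {θ : ℝ | 0 ≤ θ ∧ θ ≤ 1 ∧ 1 / Real.log X ^ B <
      ‖∑ n ∈ Icc 1 X, (lw a q D y n : ℂ) *
        Complex.exp (2 * Real.pi * (n * θ : ℝ) * Complex.I)‖} ≤
      ENNReal.ofReal (q * Real.log X ^ (B + 1 + L) / X) := by
    have hs : {θ : ℝ | 0 ≤ θ ∧ θ ≤ 1 ∧ 1 / Real.log X ^ B <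
        ‖∑ n ∈ Icc 1 X, (lw a q D y n : ℂ) *
          Complex.exp (2 * Real.pi * (n * θ : ℝ) * Complex.I)‖} =
        {θ : ℝ | 0 ≤ θ ∧ θ ≤ 1 ∧
          δ < ‖∑ x ∈ prs D y, Pool.Agent.Lib.MP_5349b0_nt.SZ2.e ((fr D x.1 x.2 : ℝ) * (q * θ))‖ /
            (prs D y).card} := by
      ext θ
      simp only [Set.mem_ofPred_eq]
      rw [norm_lw a q D y X hmaps θ, hδ]
    rw [hs]
    refine (vol_tt D y q δ (by omega) hy1 hPS1 hq hδ0 hsm).trans ?_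
    apply ENNReal.ofReal_le_ofReal
    have e1 : 4 * (1 / (D * δ)) = 4 * Real.log X ^ B / D := by
      rw [hδ]
      field_simp
    rw [e1, div_le_div_iff₀ hD0 hX0]
    obtain ⟨m, hm⟩ : ∃ m : ℝ, m = Real.log X := ⟨_, rfl⟩
    rw [← hm] at hlX8 hlXB ⊢
    rw [hXr]
    have e2 : m ^ (B + 1 + L) = m ^ B * (m * m ^ L) := by
      rw [pow_add, pow_add, pow_one]
      ring
    rw [e2]
    have h1 : (1 : ℝ) ≤ m ^ L := one_le_pow₀ (by linarith)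
    have h2 : 8 ≤ m * m ^ L := by nlinarith
    calc 4 * m ^ B * (2 * (q * (D : ℝ))) = 8 * (m ^ B * (q * D)) := by ring
      _ ≤ (m * m ^ L) * (m ^ B * (q * D)) := by
          apply mul_le_mul_of_nonneg_right h2 (by positivity)
      _ = _ := by ring
  have hfin := hX₀ X (hDX.trans hDX') q hq hqX a hgcd' (lw a q D y) (lw_nonneg a q D y)
    (fun n hn => lw_mem hn) hone hvol
  -- conclusion
  have hcard : ∑ n ∈ (Icc 1 X).filter (fun n : ℕ => Even n ∧ F n), lw a q D y n =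
      (1 / ((prs D y).card : ℝ)) * (((prs D y).filter (fun x =>
        Even (a + q * fr D x.1 x.2) ∧ F (a + q * fr D x.1 x.2))).card : ℝ) := by
    have h1 := sum_lw a q D y X hmaps (fun n => if Even n ∧ F n then (1 : ℝ) else 0)
    simp only [smul_eq_mul, mul_ite, mul_one, mul_zero] at h1
    rw [Finset.sum_filter, h1]
    congr 1
    rw [Finset.sum_ite, Finset.sum_const_zero, add_zero, Finset.sum_const, nsmul_eq_mul, mul_one]
  rw [hcard, one_div, inv_mul_le_iff₀ hprs0] at hfin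
  have h1 := card_bad D y (fun t => Even (a + q * t) ∧ F (a + q * t))
  have h2 : (((tt D y).filter (fun t => Even (a + q * t) ∧ F (a + q * t))).card : ℝ) ≤
      (((prs D y).filter (fun x =>
        Even (a + q * fr D x.1 x.2) ∧ F (a + q * fr D x.1 x.2))).card : ℝ) := by exact_mod_cast h1
  have h3 : ((prs D y).card : ℝ) ≤ 2 * (tt D y).card := by
    exact_mod_cast card_tt D y (by omega) hy3
  refine h2.trans (hfin.trans ?_)
  have h4 : Real.log D ^ A ≤ Real.log X ^ A := pow_le_pow_left₀ (by linarith) hlDX A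
  have h5 : 0 < Real.log D ^ A := by
    have : 0 < Real.log D := by linarith
    positivity
  rw [mul_one_div, div_le_div_iff₀ (by
    have : 0 < Real.log X := by linarith
    positivity) h5]
  have h6 : (0 : ℝ) ≤ (tt D y).card := by positivity
  calc ((prs D y).card : ℝ) * Real.log D ^ A ≤ (2 * (tt D y).card) * Real.log X ^ A := by
        apply mul_le_mul h3 h4 h5.le (by positivity)
    _ = (tt D y).card * (2 * Real.log X ^ A) := by ring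
    _ ≤ (tt D y).card * Real.log X ^ (A + 1) := by
        apply mul_le_mul_of_nonneg_left _ h6
        rw [pow_succ']
        apply mul_le_mul_of_nonneg_right (by linarith) (by linarith)

end Pool.MP_dd84fd_nt.ET
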