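import Pool.Agent.Lib.MP_dd84fd_nt.EM.Values

/-!
# The values `a + q m ^ k`, for a general exponent `κ` of the moduli

`EM/Values.lean` with `κ/(κ+1)` in the place of `6/7`.
-/

set_option autoImplicit false

namespace Pool.MP_dd84fd_nt.ET

open Finset MeasureTheory Pool.Agent.Lib.MP_5349b0_nt.SZ2 Pool.MP_dd84fd_nt.EM

/-- the exponent -/
private theorem expo (κ k ε ε₀ : ℝ) (hκ : 1 ≤ κ) (hε : 0 < ε) (h0 : 0 < ε₀)
    (h : (κ + 1) ^ 2 * k * ε₀ ≤ ε) :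
    (κ * k - ε) * (1 - κ / (κ + 1) + ε₀) ≤ k * (κ / (κ + 1) - ε₀) := by
  have hk : 0 < κ + 1 := by linarith
  have h1 : 1 - κ / (κ + 1) = 1 / (κ + 1) := by
    field_simp
    ring
  have h2 : κ / (κ + 1) = κ * (1 / (κ + 1)) := by ring
  have h3 : (κ + 1) * (k * ε₀) ≤ ε * (1 / (κ + 1)) := by
    rw [mul_one_div, le_div_iff₀ hk]
    nlinarith
  rw [h1, h2]
  have h4 : 0 < ε * ε₀ := mul_pos hε h0
  nlinarith

open Classical in
/-- **almost all even values of `a + q m ^ k`, uniformly in `q ≤ M ^ (κ k - ε)`** -/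
theorem values (F : ℕ → Prop) (κ : ℕ) (hκ : 1 ≤ κ)
    (H : ∀ ε₀ : ℝ, 0 < ε₀ → ∀ A : ℕ, ∃ B : ℕ, ∀ K : ℕ, ∃ X₀ : ℕ, ∀ X : ℕ, X₀ ≤ X →
      ∀ q : ℕ, 1 ≤ q → (q : ℝ) ≤ (X : ℝ) ^ ((κ : ℝ) / (κ + 1) - ε₀) →
      ∀ a : ℕ, (Nat.gcd a q : ℝ) ≤ Real.log X ^ K →
      ∀ ξ : ℕ → ℝ, (∀ n, 0 ≤ ξ n) → (∀ n, ξ n ≠ 0 → n ≡ a [MOD q]) → ∑ n ∈ Icc 1 X, ξ n = 1 →
      volume {θ : ℝ | 0 ≤ θ ∧ θ ≤ 1 ∧ 1 / Real.log X ^ B <
        ‖∑ n ∈ Icc 1 X, (ξ n : ℂ) * Complex.exp (2 * Real.pi * (n * θ : ℝ) * Complex.I)‖} ≤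
        ENNReal.ofReal (q * Real.log X ^ K / X) →
      ∑ n ∈ (Icc 1 X).filter (fun n : ℕ => Even n ∧ F n), ξ n ≤ 1 / Real.log X ^ A)
    (k : ℕ) (hk : 1 ≤ k) (ε : ℝ) (hε : 0 < ε) (A L : ℕ) :
    ∃ M₀ : ℕ, ∀ M : ℕ, M₀ ≤ M → ∀ q : ℕ, 1 ≤ q → (q : ℝ) ≤ (M : ℝ) ^ (κ * k - ε) →
      ∀ a : ℕ, a ≤ q * M ^ k → (Nat.gcd a q : ℝ) ≤ Real.log M ^ L →
      (((Ico M (2 * M)).filter (fun m => Even (a + q * m ^ k) ∧ F (a + q * m ^ k))).card : ℝ) ≤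
        M / Real.log M ^ A := by
  have hk0 : (0 : ℝ) < k := by exact_mod_cast hk
  have hκr : (1 : ℝ) ≤ κ := by exact_mod_cast hκ
  obtain ⟨ε₀, hε₀⟩ : ∃ ε₀ : ℝ, ε₀ = min (ε / (((κ : ℝ) + 1) ^ 2 * k)) (1 / 4) := ⟨_, rfl⟩
  have hε0 : 0 < ε₀ := by rw [hε₀]; exact lt_min (by positivity) (by norm_num)
  have hε1 : ((κ : ℝ) + 1) ^ 2 * k * ε₀ ≤ ε := by
    have h1 : ε₀ ≤ ε / (((κ : ℝ) + 1) ^ 2 * k) := by rw [hε₀]; exact min_le_left _ _
    rw [le_div_iff₀ (by positivity)] at h1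
    linarith
  have hε2 : ε₀ ≤ 1 / 4 := by rw [hε₀]; exact min_le_right _ _
  have hκ2 : (1 : ℝ) / 2 ≤ (κ : ℝ) / (κ + 1) := by
    rw [div_le_div_iff₀ (by norm_num) (by linarith)]
    linarith
  obtain ⟨B, hB⟩ := H ε₀ hε0 A
  obtain ⟨C, hC1, hC⟩ := weylInv k hk
  obtain ⟨X₀, hX₀⟩ := hB (2 * B * C + 1 + L)
  -- largeness of `M`
  have hlogT : Filter.Tendsto (fun M : ℕ => Real.log (M : ℝ)) Filter.atTop Filter.atTop :=
    Real.tendsto_log_atTop.comp tendsto_natCast_atTop_atTop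
  have hev1 : ∀ᶠ M : ℕ in Filter.atTop,
      (C : ℝ) * (((κ + 2) * k + 1) * Real.log M) ^ (B * C) ≤ M := by
    have h1 : (fun x : ℝ => Real.log x ^ (B * C)) =o[Filter.atTop] id :=
      Real.isLittleO_pow_log_id_atTop
    have h2 := h1.bound (c := 1 / ((C : ℝ) * ((κ + 2) * k + 1) ^ (B * C)))
      (by have : (0 : ℝ) < C := by exact_mod_cast hC1
          positivity)
    have h3 := tendsto_natCast_atTop_atTop.eventually h2
    filter_upwards [h3, hlogT.eventually_ge_atTop 0] with M hM hM0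
    have hC0 : (0 : ℝ) < C := by exact_mod_cast hC1
    rw [Real.norm_eq_abs, abs_of_nonneg (pow_nonneg hM0 _), id, Real.norm_eq_abs,
      abs_of_nonneg (Nat.cast_nonneg M), one_div, inv_mul_eq_div, le_div_iff₀ (by positivity)] at hM
    rw [mul_pow]
    linarith
  obtain ⟨M₁, hM₁⟩ := Filter.eventually_atTop.1 (hev1.and
    (hlogT.eventually_ge_atTop ((2 : ℝ) ^ (k + 3) * C ^ 2 + 1)))
  refine ⟨max (max M₁ X₀) 2, fun M hM q hq hqM a ha hgcd => ?_⟩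
  simp only [max_le_iff] at hM
  obtain ⟨⟨hM1, hMX⟩, hM2⟩ := hM
  obtain ⟨hb1, hb2⟩ := hM₁ M hM1
  have hMr : (2 : ℝ) ≤ M := by exact_mod_cast hM2
  have hM0 : (0 : ℝ) < M := by linarith
  have hqr : (1 : ℝ) ≤ q := by exact_mod_cast hq
  have hC1r : (1 : ℝ) ≤ C := by exact_mod_cast hC1
  -- the range `X`
  obtain ⟨X, hX⟩ : ∃ X : ℕ, X = a + q * (2 * M) ^ k := ⟨_, rfl⟩
  have hMk : 1 ≤ M ^ k := Nat.one_le_pow _ _ (by omega)
  have hMle : M ≤ M ^ k := by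
    calc M = M ^ 1 := (pow_one M).symm
      _ ≤ M ^ k := Nat.pow_le_pow_right (by omega) hk
  have hqMX : q * M ^ k ≤ X := by
    rw [hX]
    have : M ^ k ≤ (2 * M) ^ k := Nat.pow_le_pow_left (by omega) k
    nlinarith
  have hMX' : M ≤ X := by
    have : M ^ k ≤ q * M ^ k := Nat.le_mul_of_pos_left _ hq
    omega
  have hXle : X ≤ 2 ^ (k + 1) * (q * M ^ k) := by
    rw [hX, mul_pow, pow_succ]
    have : 1 ≤ 2 ^ k := Nat.one_le_two_pow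
    nlinarith
  have hXr : (X : ℝ) ≤ 2 ^ (k + 1) * (q * (M : ℝ) ^ k) := by exact_mod_cast hXle
  have hqMXr : (q : ℝ) * (M : ℝ) ^ k ≤ X := by exact_mod_cast hqMX
  have hMXr : (M : ℝ) ≤ X := by exact_mod_cast hMX'
  have hX0 : (0 : ℝ) < X := by linarith
  have hlM : (2 : ℝ) ^ (k + 3) * C ^ 2 + 1 ≤ Real.log M := hb2
  have hlMX : Real.log M ≤ Real.log X := Real.log_le_log hM0 hMXr
  have hlM1 : 1 ≤ Real.log M := by
    have : (0 : ℝ) ≤ (2 : ℝ) ^ (k + 3) * C ^ 2 := by positivity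
    linarith
  have hlX1 : 1 ≤ Real.log X := hlM1.trans hlMX
  have hlX : Real.log X ≤ ((κ + 2) * k + 1) * Real.log M := by
    have h1 : (q : ℝ) ≤ (M : ℝ) ^ ((κ : ℝ) * (k : ℝ)) :=
      hqM.trans (Real.rpow_le_rpow_of_exponent_le (by linarith) (by linarith))
    have h2 : (2 : ℝ) ^ (k + 1) ≤ (M : ℝ) ^ ((k : ℝ) + 1) := by
      rw [show ((k : ℝ) + 1) = ((k + 1 : ℕ) : ℝ) by push_cast; ring, Real.rpow_natCast]
      exact pow_le_pow_left₀ (by norm_num) hMr _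
    have h3 : (X : ℝ) ≤ (M : ℝ) ^ (((κ : ℝ) + 2) * (k : ℝ) + 1) := by
      calc (X : ℝ) ≤ 2 ^ (k + 1) * (q * (M : ℝ) ^ k) := hXr
        _ ≤ (M : ℝ) ^ ((k : ℝ) + 1) * ((M : ℝ) ^ ((κ : ℝ) * (k : ℝ)) * (M : ℝ) ^ (k : ℝ)) := by
            rw [Real.rpow_natCast M k]
            apply mul_le_mul h2 _ (by positivity) (by positivity)
            exact mul_le_mul_of_nonneg_right h1 (by positivity)
        _ = (M : ℝ) ^ (((κ : ℝ) + 2) * (k : ℝ) + 1) := by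
            rw [← Real.rpow_add hM0, ← Real.rpow_add hM0]
            congr 1
            ring
    calc Real.log X ≤ Real.log ((M : ℝ) ^ (((κ : ℝ) + 2) * (k : ℝ) + 1)) := Real.log_le_log hX0 h3
      _ = ((κ + 2) * k + 1) * Real.log M := Real.log_rpow hM0 _
  have hmaps : ∀ m ∈ Ico M (2 * M), a + q * m ^ k ∈ Icc 1 X := by
    intro m hm
    rw [Finset.mem_Ico] at hm
    rw [Finset.mem_Icc, hX]
    constructor
    · have h1 : 1 ≤ m ^ k := Nat.one_le_pow _ _ (by omega)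
      have h2 : 1 ≤ q * m ^ k := Nat.mul_pos hq h1
      omega
    · have h1 : m ^ k ≤ (2 * M) ^ k := Nat.pow_le_pow_left (by omega) k
      have h2 := Nat.mul_le_mul_left q h1
      omega
  -- the modulus
  have hqX : (q : ℝ) ≤ (X : ℝ) ^ ((κ : ℝ) / (κ + 1) - ε₀) := by
    have hs : 0 ≤ 1 - (κ : ℝ) / (κ + 1) + ε₀ := by
      have : (κ : ℝ) / (κ + 1) ≤ 1 := by
        rw [div_le_one (by linarith)]
        linarith
      linarith
    have h1 : (q : ℝ) ^ (1 - (κ : ℝ) / (κ + 1) + ε₀) ≤ (M : ℝ) ^ (k * ((κ : ℝ) / (κ + 1) - ε₀)) := by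
      calc (q : ℝ) ^ (1 - (κ : ℝ) / (κ + 1) + ε₀) ≤
          ((M : ℝ) ^ (κ * k - ε)) ^ (1 - (κ : ℝ) / (κ + 1) + ε₀) :=
            Real.rpow_le_rpow (by linarith) hqM hs
        _ = (M : ℝ) ^ ((κ * k - ε) * (1 - (κ : ℝ) / (κ + 1) + ε₀)) := by rw [← Real.rpow_mul hM0.le]
        _ ≤ (M : ℝ) ^ (k * ((κ : ℝ) / (κ + 1) - ε₀)) :=
            Real.rpow_le_rpow_of_exponent_le (by linarith) (expo κ k ε ε₀ hκr hε hε0 hε1)
    have h2 : (q : ℝ) = (q : ℝ) ^ (1 - (κ : ℝ) / (κ + 1) + ε₀) * (q : ℝ) ^ ((κ : ℝ) / (κ + 1) - ε₀) := by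
      rw [← Real.rpow_add (by linarith)]
      norm_num
    have h3 : ((M : ℝ) ^ k) ^ ((κ : ℝ) / (κ + 1) - ε₀) = (M : ℝ) ^ (k * ((κ : ℝ) / (κ + 1) - ε₀)) := by
      rw [← Real.rpow_natCast M k, ← Real.rpow_mul hM0.le]
    calc (q : ℝ) = (q : ℝ) ^ (1 - (κ : ℝ) / (κ + 1) + ε₀) * (q : ℝ) ^ ((κ : ℝ) / (κ + 1) - ε₀) := h2
      _ ≤ (M : ℝ) ^ (k * ((κ : ℝ) / (κ + 1) - ε₀)) * (q : ℝ) ^ ((κ : ℝ) / (κ + 1) - ε₀) :=
          mul_le_mul_of_nonneg_right h1 (Real.rpow_nonneg (by linarith) _)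
      _ = (q * (M : ℝ) ^ k) ^ ((κ : ℝ) / (κ + 1) - ε₀) := by
          rw [Real.mul_rpow (by linarith) (by positivity), h3]
          ring
      _ ≤ (X : ℝ) ^ ((κ : ℝ) / (κ + 1) - ε₀) := Real.rpow_le_rpow (by positivity) hqMXr (by linarith)
  have hgcd' : (Nat.gcd a q : ℝ) ≤ Real.log X ^ (2 * B * C + 1 + L) := by
    calc (Nat.gcd a q : ℝ) ≤ Real.log M ^ L := hgcd
      _ ≤ Real.log X ^ L := pow_le_pow_left₀ (by linarith) hlMX L
      _ ≤ Real.log X ^ (2 * B * C + 1 + L) := pow_le_pow_right₀ hlX1 (by omega)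
  -- the total mass
  have hone : ∑ n ∈ Icc 1 X, law a q k M n = 1 := by
    have h1 := sum_law a q k M X hmaps (fun _ => (1 : ℝ))
    simp only [smul_eq_mul, mul_one, Finset.sum_const, Nat.card_Ico, nsmul_eq_mul] at h1
    rw [h1]
    have h2 : 2 * M - M = M := by omega
    rw [h2]
    field_simp
  -- the large spectrum
  obtain ⟨δ, hδ⟩ : ∃ δ : ℝ, δ = 1 / Real.log X ^ B := ⟨_, rfl⟩
  have hδ0 : 0 < δ := by rw [hδ]; positivity
  have hδ1 : δ ≤ 1 := by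
    rw [hδ, div_le_one (by positivity)]
    exact one_le_pow₀ hlX1
  have hQ : (C : ℝ) / δ ^ C = C * Real.log X ^ (B * C) := by
    rw [hδ, div_pow, one_pow, ← pow_mul, div_div_eq_mul_div, div_one]
  have hCM : (C : ℝ) / δ ^ C ≤ M := by
    rw [hQ]
    refine le_trans ?_ hb1
    exact mul_le_mul_of_nonneg_left (pow_le_pow_left₀ (by linarith) hlX _) (by positivity)
  have hvol : volume {θ : ℝ | 0 ≤ θ ∧ θ ≤ 1 ∧ 1 / Real.log X ^ B <
      ‖∑ n ∈ Icc 1 X, (law a q k M n : ℂ) *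
        Complex.exp (2 * Real.pi * (n * θ : ℝ) * Complex.I)‖} ≤
      ENNReal.ofReal (q * Real.log X ^ (2 * B * C + 1 + L) / X) := by
    have hs : {θ : ℝ | 0 ≤ θ ∧ θ ≤ 1 ∧ 1 / Real.log X ^ B <
      ‖∑ n ∈ Icc 1 X, (law a q k M n : ℂ) *
        Complex.exp (2 * Real.pi * (n * θ : ℝ) * Complex.I)‖} ⊆
        {θ : ℝ | 0 ≤ θ ∧ θ ≤ 1 ∧
          δ * M ≤ ‖∑ n ∈ Ico (M : ℤ) (2 * M), e ((q * θ) * (n : ℝ) ^ k)‖} := by
      rintro θ ⟨h0, h1, h2⟩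
      refine ⟨h0, h1, ?_⟩
      rw [← norm_hat a q k M X (by omega) hmaps θ]
      rw [← hδ] at h2
      exact mul_le_mul_of_nonneg_right h2.le hM0.le
    refine (measure_mono hs).trans ((vol_spec (C := C) (by omega) hq hδ0
      (fun φ hφ => hC M φ δ hδ0 hδ1 hCM hφ)).trans ?_)
    apply ENNReal.ofReal_le_ofReal
    rw [hQ, div_le_div_iff₀ (by positivity) hX0]
    have hP : (0 : ℝ) < Real.log X ^ (2 * B * C) := by positivity
    have e1 : ((C : ℝ) * Real.log X ^ (B * C)) ^ 2 = C ^ 2 * Real.log X ^ (2 * B * C) := by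
      rw [mul_pow, ← pow_mul]
      congr 2
      ring
    have e2 : Real.log X ^ (2 * B * C + 1 + L) =
        Real.log X ^ (2 * B * C) * (Real.log X * Real.log X ^ L) := by
      rw [pow_add, pow_add, pow_one]
      ring
    have e3 : (2 : ℝ) ^ (k + 3) = 4 * 2 ^ (k + 1) := by
      rw [show k + 3 = (k + 1) + 2 by ring, pow_add]
      ring
    have h5 : (2 : ℝ) ^ (k + 3) * C ^ 2 ≤ Real.log X * Real.log X ^ L := by
      have h6 : (1 : ℝ) ≤ Real.log X ^ L := one_le_pow₀ hlX1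
      nlinarith
    rw [e1, e2]
    calc 4 * ((C : ℝ) ^ 2 * Real.log X ^ (2 * B * C)) * X
        ≤ 4 * ((C : ℝ) ^ 2 * Real.log X ^ (2 * B * C)) * (2 ^ (k + 1) * (q * (M : ℝ) ^ k)) :=
          mul_le_mul_of_nonneg_left hXr (by positivity)
      _ = (2 ^ (k + 3) * C ^ 2) * (Real.log X ^ (2 * B * C) * (q * (M : ℝ) ^ k)) := by
          rw [e3]; ring
      _ ≤ (Real.log X * Real.log X ^ L) * (Real.log X ^ (2 * B * C) * (q * (M : ℝ) ^ k)) :=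
          mul_le_mul_of_nonneg_right h5 (by positivity)
      _ = _ := by ring
  have hfin := hX₀ X (hMX.trans hMX') q hq hqX a hgcd' (law a q k M) (law_nonneg a q k M)
    (fun n hn => law_mem hn) hone hvol
  -- conclusion
  have hcard : ∑ n ∈ (Icc 1 X).filter (fun n : ℕ => Even n ∧ F n), law a q k M n =
      (1 / (M : ℝ)) *
        (((Ico M (2 * M)).filter (fun m => Even (a + q * m ^ k) ∧ F (a + q * m ^ k))).card : ℝ) := by
    have h1 := sum_law a q k M X hmaps (fun n => if Even n ∧ F n then (1 : ℝ) else 0)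
    simp only [smul_eq_mul, mul_ite, mul_one, mul_zero] at h1
    rw [Finset.sum_filter, h1]
    congr 1
    rw [Finset.sum_ite, Finset.sum_const_zero, add_zero, Finset.sum_const, nsmul_eq_mul, mul_one]
  rw [hcard, one_div, inv_mul_le_iff₀ hM0] at hfin
  refine hfin.trans ?_
  rw [mul_one_div]
  exact div_le_div_of_nonneg_left hM0.le (by positivity) (pow_le_pow_left₀ (by linarith) hlMX A)

end Pool.MP_dd84fd_nt.ET
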