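import Pool.Agent.Lib.MP_dd84fd_nt.ET.Kern

/-!
# The fractions `s / p` modulo `D` are uniformly distributed in the Bohr sets

Razborov, Szemerédi, Wigderson 1993: the residues modulo `D` of the fractions `s / p`, `p ≤ y` a prime
which does not divide `D`, `1 ≤ s ≤ y²`, have small Fourier coefficients.  For `1 ≤ k < D` the sum over
`s` is at most `y` unless `k / p` modulo `D` is at most `D / (2 y)` in absolute value, and in this case
`p` divides `k` or `D - k`.
-/

set_option autoImplicit false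

namespace Pool.MP_dd84fd_nt.ET

open Finset Pool.Agent.Lib.MP_5349b0_nt.SZ2

/-- the residue of `s / p` modulo `D` -/
def fr (D p s : ℕ) : ℕ := ((s : ZMod D) * (p : ZMod D)⁻¹).val

/-- the primes `p ≤ y` which do not divide `D` -/
def PS (D y : ℕ) : Finset ℕ := (Icc 1 y).filter (fun p => p.Prime ∧ ¬ p ∣ D)

/-- the pairs `(p, s)` -/
def prs (D y : ℕ) : Finset (ℕ × ℕ) := PS D y ×ˢ Icc 1 (y ^ 2)

theorem fr_eq (D p s : ℕ) [NeZero D] : fr D p s = (s * ((p : ZMod D)⁻¹).val) % D := by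
  unfold fr
  rw [ZMod.val_mul, ZMod.val_natCast, Nat.mod_mul_mod]

theorem fr_lt (D p s : ℕ) (hD : 1 ≤ D) : fr D p s < D := by
  have : NeZero D := ⟨by omega⟩
  exact ZMod.val_lt _

/-- `n` has at most `log n / log 2` prime factors -/
theorem card_pf (n : ℕ) (hn : 1 ≤ n) : n.primeFactors.card ≤ Nat.log 2 n := by
  apply Nat.le_log_of_pow_le (by norm_num)
  calc 2 ^ n.primeFactors.card = ∏ p ∈ n.primeFactors, 2 := by rw [Finset.prod_const]
    _ ≤ ∏ p ∈ n.primeFactors, p :=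
        Finset.prod_le_prod' fun p hp => (Nat.prime_of_mem_primeFactors hp).two_le
    _ ≤ n := Nat.le_of_dvd (by omega) (Nat.prod_primeFactors_dvd n)

private theorem sum_Icc_range (S : ℕ) (f : ℕ → ℂ) :
    ∑ s ∈ Icc 1 S, f s = ∑ s ∈ range S, f (s + 1) := by
  rw [Finset.range_eq_Ico, Finset.sum_Ico_add' f 0 S 1]
  rfl

private theorem e_fr (D p s k : ℕ) [NeZero D] :
    e ((fr D p s : ℝ) * (k / D)) = e (s * (k * (((p : ZMod D)⁻¹).val : ℝ) / D)) := by
  obtain ⟨u, hu⟩ : ∃ u : ℕ, u = ((p : ZMod D)⁻¹).val := ⟨_, rfl⟩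
  have hD0 : (D : ℝ) ≠ 0 := by exact_mod_cast (NeZero.ne D)
  rw [fr_eq, ← hu]
  have h1 : s * u = D * (s * u / D) + (s * u) % D := (Nat.div_add_mod _ _).symm
  obtain ⟨W, hW⟩ : ∃ W : ℕ, W = s * u / D := ⟨_, rfl⟩
  obtain ⟨V, hV⟩ : ∃ V : ℕ, V = s * u % D := ⟨_, rfl⟩
  rw [← hW, ← hV] at h1
  rw [← hV]
  have h2 : (s : ℝ) * u = D * (W : ℝ) + (V : ℝ) := by exact_mod_cast h1
  have h3 : (s : ℝ) * (k * (u : ℝ) / D) = (V : ℝ) * (k / D) + (((W * k : ℕ) : ℤ) : ℝ) := by
    push_cast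
    have h4 : (s : ℝ) * (k * (u : ℝ) / D) = (s * u) * k / D := by ring
    rw [h4, h2]
    field_simp
    ring
  rw [h3, e_add_int]

/-- if the sum over `s` is not small then `p` divides `k` or `D - k` -/
private theorem bad_dvd (D y k p : ℕ) [NeZero D] (hk1 : 1 ≤ k) (hkD : k < D) (hp : p ∈ PS D y)
    (h : dZ (k * (((p : ZMod D)⁻¹).val : ℝ) / D) < 1 / (2 * y)) : p ∣ k ∨ p ∣ D - k := by
  unfold PS at hp
  rw [mem_filter, mem_Icc] at hp
  obtain ⟨⟨hp1, hpy⟩, hpp, hpD⟩ := hp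
  have hcop : Nat.Coprime p D := (Nat.Prime.coprime_iff_not_dvd hpp).2 hpD
  obtain ⟨u, hu⟩ : ∃ u : ℕ, u = ((p : ZMod D)⁻¹).val := ⟨_, rfl⟩
  rw [← hu] at h
  have hDn : (0 : ℝ) < D := by
    have : 0 < D := by omega
    exact_mod_cast this
  have hy0 : (0 : ℝ) < y := by
    have : 0 < y := by omega
    exact_mod_cast this
  have hpu : ∃ w : ℤ, (p : ℤ) * u = 1 + D * w := by
    have h1 : ((p * u : ℕ) : ZMod D) = ((1 : ℕ) : ZMod D) := by
      push_cast
      rw [hu, ZMod.natCast_val, ZMod.cast_id', id]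
      exact ZMod.coe_mul_inv_eq_one p hcop
    rw [ZMod.natCast_eq_natCast_iff] at h1
    have h2 := (Nat.modEq_iff_dvd.1 h1.symm)
    obtain ⟨w, hw⟩ := h2
    refine ⟨w, ?_⟩
    push_cast at hw
    linarith
  obtain ⟨w, hw⟩ := hpu
  obtain ⟨z, hz⟩ : ∃ z : ℤ, z = round ((k : ℝ) * u / D) := ⟨_, rfl⟩
  unfold dZ at h
  rw [← hz] at h
  obtain ⟨r, hr⟩ : ∃ r : ℤ, r = k * u - D * z := ⟨_, rfl⟩
  have hr1 : |(r : ℝ)| < D / (2 * y) := by
    have h1 : (r : ℝ) = D * ((k : ℝ) * u / D - z) := by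
      rw [hr]
      push_cast
      field_simp
    rw [h1, abs_mul, abs_of_pos hDn]
    calc (D : ℝ) * |(k : ℝ) * u / D - z| < D * (1 / (2 * y)) := mul_lt_mul_of_pos_left h hDn
      _ = D / (2 * y) := by ring
  have hpr : |((p * r : ℤ) : ℝ)| < D / 2 := by
    push_cast
    rw [abs_mul, Nat.abs_cast]
    have hpy' : (p : ℝ) ≤ y := by exact_mod_cast hpy
    have hp0 : (0 : ℝ) < p := by exact_mod_cast hp1
    calc (p : ℝ) * |(r : ℝ)| < p * (D / (2 * y)) := mul_lt_mul_of_pos_left hr1 hp0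
      _ ≤ y * (D / (2 * y)) := mul_le_mul_of_nonneg_right hpy' (by positivity)
      _ = D / 2 := by field_simp
  have hpr2 : -(D : ℤ) < 2 * (p * r) ∧ 2 * (p * r) < (D : ℤ) := by
    rw [abs_lt] at hpr
    constructor
    · have : -(D : ℝ) < ((2 * (p * r) : ℤ) : ℝ) := by push_cast; push_cast at hpr; linarith [hpr.1]
      exact_mod_cast this
    · have : ((2 * (p * r) : ℤ) : ℝ) < (D : ℝ) := by push_cast; push_cast at hpr; linarith [hpr.2]
      exact_mod_cast this
  -- `p r = k + D v`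
  obtain ⟨v, hv⟩ : ∃ v : ℤ, v = k * w - p * z := ⟨_, rfl⟩
  have hprk : (p : ℤ) * r = k + D * v := by
    rw [hr, hv]
    calc (p : ℤ) * (k * u - D * z) = k * (p * u) - D * (p * z) := by ring
      _ = k * (1 + D * w) - D * (p * z) := by rw [hw]
      _ = k + D * (k * w - p * z) := by ring
  rw [hprk] at hpr2
  have hDz : (1 : ℤ) ≤ D := by omega
  have hv1 : v ≤ 0 := by
    by_contra hc
    have h1 : 1 ≤ v := by omega
    nlinarith [hpr2.2]
  have hv2 : -1 ≤ v := by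
    by_contra hc
    have h1 : v ≤ -2 := by omega
    nlinarith [hpr2.1]
  have hv3 : v = 0 ∨ v = -1 := by omega
  rcases hv3 with h0 | h0
  · left
    rw [h0, mul_zero, add_zero] at hprk
    have : (p : ℤ) ∣ (k : ℤ) := ⟨r, hprk.symm⟩
    exact_mod_cast this
  · right
    rw [h0] at hprk
    have h1 : ((D - k : ℕ) : ℤ) = p * (-r) := by
      rw [Nat.cast_sub hkD.le]
      linarith
    have : (p : ℤ) ∣ ((D - k : ℕ) : ℤ) := ⟨-r, h1⟩
    exact_mod_cast this

private theorem inner (D y k p : ℕ) [NeZero D] (hy : 1 ≤ y) :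
    ‖∑ s ∈ Icc 1 (y ^ 2), e ((fr D p s : ℝ) * (k / D))‖ ≤
      if dZ (k * (((p : ZMod D)⁻¹).val : ℝ) / D) < 1 / (2 * y) then (y : ℝ) ^ 2 else y := by
  have hy0 : (0 : ℝ) < y := by exact_mod_cast hy
  obtain ⟨x, hx⟩ : ∃ x : ℝ, x = k * (((p : ZMod D)⁻¹).val : ℝ) / D := ⟨_, rfl⟩
  have h1 : ∑ s ∈ Icc 1 (y ^ 2), e ((fr D p s : ℝ) * (k / D)) =
      e x * ∑ s ∈ range (y ^ 2), e (s * x) := by
    rw [sum_Icc_range, Finset.mul_sum]
    refine Finset.sum_congr rfl fun s _ => ?_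
    rw [e_fr, ← hx, ← e_add]
    congr 1
    push_cast
    ring
  rw [h1, norm_mul, norm_e, one_mul, ← hx]
  split_ifs with h
  · have := geo_triv (y ^ 2) x
    push_cast at this
    exact this
  · push Not at h
    have h2 : 0 < dZ x := lt_of_lt_of_le (by positivity) h
    refine (geo_le _ x h2).trans ?_
    rw [div_le_iff₀ (by positivity)]
    rw [div_le_iff₀ (by positivity)] at h
    linarith

theorem rsw (D y k : ℕ) (hk1 : 1 ≤ k) (hkD : k < D) (hy : 1 ≤ y) :
    ‖∑ x ∈ prs D y, e ((fr D x.1 x.2 : ℝ) * (k / D))‖ ≤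
      (PS D y).card * y + 2 * (Nat.log 2 D : ℝ) * (y : ℝ) ^ 2 := by
  classical
  have : NeZero D := ⟨by omega⟩
  have hy0 : (0 : ℝ) < y := by exact_mod_cast hy
  unfold prs
  rw [Finset.sum_product]
  refine (norm_sum_le _ _).trans ((Finset.sum_le_sum fun p _ => inner D y k p hy).trans ?_)
  have h1 : ∀ p ∈ PS D y,
      (if dZ (k * (((p : ZMod D)⁻¹).val : ℝ) / D) < 1 / (2 * y) then (y : ℝ) ^ 2 else y) ≤
      y + if p ∈ k.primeFactors ∪ (D - k).primeFactors then (y : ℝ) ^ 2 else 0 := by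
    intro p hp
    by_cases h : dZ (k * (((p : ZMod D)⁻¹).val : ℝ) / D) < 1 / (2 * y)
    · have h2 := bad_dvd D y k p hk1 hkD hp h
      have hpp : p.Prime := by
        unfold PS at hp
        exact (mem_filter.1 hp).2.1
      have h3 : p ∈ k.primeFactors ∪ (D - k).primeFactors := by
        rw [mem_union, Nat.mem_primeFactors, Nat.mem_primeFactors]
        rcases h2 with h2 | h2
        · exact Or.inl ⟨hpp, h2, by omega⟩
        · exact Or.inr ⟨hpp, h2, by omega⟩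
      rw [if_pos h, if_pos h3]
      linarith
    · rw [if_neg h]
      split_ifs
      · nlinarith
      · linarith
  refine (Finset.sum_le_sum h1).trans ?_
  rw [Finset.sum_add_distrib, Finset.sum_const, nsmul_eq_mul, ← Finset.sum_filter, Finset.sum_const,
    nsmul_eq_mul]
  have h2 : (((PS D y).filter (fun p => p ∈ k.primeFactors ∪ (D - k).primeFactors)).card : ℝ) ≤
      2 * (Nat.log 2 D : ℝ) := by
    have h3 : ((PS D y).filter (fun p => p ∈ k.primeFactors ∪ (D - k).primeFactors)).card ≤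
        Nat.log 2 D + Nat.log 2 D := by
      calc _ ≤ (k.primeFactors ∪ (D - k).primeFactors).card :=
            Finset.card_le_card fun p hp => (mem_filter.1 hp).2
        _ ≤ k.primeFactors.card + (D - k).primeFactors.card := Finset.card_union_le _ _
        _ ≤ Nat.log 2 k + Nat.log 2 (D - k) :=
            Nat.add_le_add (card_pf k hk1) (card_pf (D - k) (by omega))
        _ ≤ _ := Nat.add_le_add (Nat.log_mono_right hkD.le) (Nat.log_mono_right (by omega))
    have h4 : (((PS D y).filter (fun p => p ∈ k.primeFactors ∪ (D - k).primeFactors)).card : ℝ) ≤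
        ((Nat.log 2 D + Nat.log 2 D : ℕ) : ℝ) := by exact_mod_cast h3
    push_cast at h4
    linarith
  have h5 : 0 ≤ (y : ℝ) ^ 2 := by positivity
  have h6 := mul_le_mul_of_nonneg_right h2 h5
  linarith

end Pool.MP_dd84fd_nt.ET
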