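import Pool.Agent.Lib.MP_dd84fd_nt.ET.Rsw

/-!
# The set of the residues `s / p` modulo `D`

`tt D y`: the residues modulo `D` of the fractions `s / p`, `p ≤ y` prime, `p ∤ D`, `1 ≤ s ≤ y²`.
If `y³ < D` then different fractions in lowest terms have different residues, so the set has at least
half as many elements as there are pairs `(p, s)`.
-/

set_option autoImplicit false

namespace Pool.MP_dd84fd_nt.ET

open Finset

/-- the residues of the fractions `s / p` -/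
def tt (D y : ℕ) : Finset ℕ := (prs D y).image (fun x => fr D x.1 x.2)

theorem mem_prs (D y p s : ℕ) : (p, s) ∈ prs D y ↔
    (p.Prime ∧ p ≤ y ∧ ¬ p ∣ D) ∧ 1 ≤ s ∧ s ≤ y ^ 2 := by
  unfold prs PS
  rw [mem_product, mem_filter, mem_Icc, mem_Icc]
  constructor
  · rintro ⟨⟨⟨h1, h2⟩, h3, h4⟩, h5⟩
    exact ⟨⟨h3, h2, h4⟩, h5⟩
  · rintro ⟨⟨h1, h2, h3⟩, h4⟩
    exact ⟨⟨⟨h1.one_le, h2⟩, h1, h3⟩, h4⟩

theorem mul_fr (D p s : ℕ) (hD : 1 ≤ D) (hp : p.Prime) (hpD : ¬ p ∣ D) :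
    p * fr D p s ≡ s [MOD D] := by
  have : NeZero D := ⟨by omega⟩
  have hcop : Nat.Coprime p D := (Nat.Prime.coprime_iff_not_dvd hp).2 hpD
  rw [← ZMod.natCast_eq_natCast_iff]
  push_cast
  unfold fr
  rw [ZMod.natCast_val, ZMod.cast_id', id]
  calc (p : ZMod D) * ((s : ZMod D) * (p : ZMod D)⁻¹) = s * ((p : ZMod D) * (p : ZMod D)⁻¹) := by ring
    _ = s := by rw [ZMod.coe_mul_inv_eq_one p hcop, mul_one]

theorem mem_tt (D y t : ℕ) (hD : 1 ≤ D) : t ∈ tt D y ↔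
    t < D ∧ ∃ p s : ℕ, p.Prime ∧ p ≤ y ∧ ¬ p ∣ D ∧ 1 ≤ s ∧ s ≤ y ^ 2 ∧ p * t ≡ s [MOD D] := by
  unfold tt
  rw [mem_image]
  constructor
  · rintro ⟨⟨p, s⟩, h, rfl⟩
    rw [mem_prs] at h
    exact ⟨fr_lt D p s hD, p, s, h.1.1, h.1.2.1, h.1.2.2, h.2.1, h.2.2, mul_fr D p s hD h.1.1 h.1.2.2⟩
  · rintro ⟨h1, p, s, h2, h3, h4, h5, h6, h7⟩
    refine ⟨(p, s), (mem_prs D y p s).2 ⟨⟨h2, h3, h4⟩, h5, h6⟩, ?_⟩
    have hcop : Nat.Coprime p D := (Nat.Prime.coprime_iff_not_dvd h2).2 h4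
    have h8 : p * fr D p s ≡ p * t [MOD D] := (mul_fr D p s hD h2 h4).trans h7.symm
    have h9 : fr D p s ≡ t [MOD D] := Nat.ModEq.cancel_left_of_coprime (by
      rw [Nat.Coprime] at hcop
      rw [Nat.gcd_comm]
      exact hcop) h8
    exact Nat.ModEq.eq_of_lt_of_lt h9 (fr_lt D p s hD) h1

private theorem inj (D y : ℕ) (hD : 1 ≤ D) (hy : y ^ 3 < D) :
    Set.InjOn (fun x : ℕ × ℕ => fr D x.1 x.2) ((prs D y).filter (fun x => ¬ x.1 ∣ x.2)) := by
  rintro ⟨p, s⟩ h ⟨p', s'⟩ h' he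
  simp only [Finset.coe_filter, Set.mem_ofPred_eq] at h h'
  rw [mem_prs] at h h'
  simp only at he
  obtain ⟨⟨⟨h1, h2, h3⟩, h4, h5⟩, h6⟩ := h
  obtain ⟨⟨⟨h1', h2', h3'⟩, h4', h5'⟩, h6'⟩ := h'
  have e1 := mul_fr D p s hD h1 h3
  have e2 := mul_fr D p' s' hD h1' h3'
  rw [← he] at e2
  have e3 : p' * s ≡ p * s' [MOD D] := by
    calc p' * s ≡ p' * (p * fr D p s) [MOD D] := (Nat.ModEq.mul_left p' e1).symm
      _ = p * (p' * fr D p s) := by ring
      _ ≡ p * s' [MOD D] := Nat.ModEq.mul_left p e2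
  have e4 : p' * s = p * s' := by
    refine Nat.ModEq.eq_of_lt_of_lt e3 ?_ ?_
    · calc p' * s ≤ y * y ^ 2 := Nat.mul_le_mul h2' h5
        _ = y ^ 3 := by ring
        _ < D := hy
    · calc p * s' ≤ y * y ^ 2 := Nat.mul_le_mul h2 h5'
        _ = y ^ 3 := by ring
        _ < D := hy
  have e5 : p = p' := by
    have h7 : p ∣ p' * s := ⟨s', e4⟩
    rcases (Nat.Prime.dvd_mul h1).1 h7 with h8 | h8
    · exact (Nat.prime_dvd_prime_iff_eq h1 h1').1 h8
    · exact absurd h8 h6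
  subst e5
  have e6 : s = s' := Nat.eq_of_mul_eq_mul_left h1.pos e4
  rw [e6]

private theorem card_dvd (D y : ℕ) :
    2 * ((prs D y).filter (fun x => x.1 ∣ x.2)).card ≤ (prs D y).card := by
  have h1 : ((prs D y).filter (fun x => x.1 ∣ x.2)).card =
      ∑ p ∈ PS D y, ((Icc 1 (y ^ 2)).filter (fun s => p ∣ s)).card := by
    unfold prs
    rw [Finset.card_filter, Finset.sum_product]
    refine Finset.sum_congr rfl fun p _ => ?_
    rw [Finset.card_filter]
  have h2 : (prs D y).card = ∑ p ∈ PS D y, y ^ 2 := by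
    unfold prs
    rw [Finset.card_product, Nat.card_Icc, Finset.sum_const, smul_eq_mul]
    congr 1
  rw [h1, h2, Finset.mul_sum]
  refine Finset.sum_le_sum fun p hp => ?_
  have hpp : p.Prime := by
    unfold PS at hp
    exact (mem_filter.1 hp).2.1
  have h3 : ((Icc 1 (y ^ 2)).filter (fun s => p ∣ s)).card = y ^ 2 / p := by
    have h4 : Icc 1 (y ^ 2) = Ioc 0 (y ^ 2) := by
      ext s
      rw [mem_Icc, mem_Ioc]
      omega
    rw [h4]
    exact Nat.Ioc_filter_dvd_card_eq_div (y ^ 2) p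
  rw [h3]
  calc 2 * (y ^ 2 / p) ≤ p * (y ^ 2 / p) := Nat.mul_le_mul_right _ hpp.two_le
    _ ≤ y ^ 2 := Nat.mul_div_le _ _

/-- the set has at least half as many elements as there are pairs -/
theorem card_tt (D y : ℕ) (hD : 1 ≤ D) (hy : y ^ 3 < D) : (prs D y).card ≤ 2 * (tt D y).card := by
  have h1 : ((prs D y).filter (fun x => ¬ x.1 ∣ x.2)).card ≤ (tt D y).card := by
    unfold tt
    refine Finset.card_le_card_of_injOn (fun x => fr D x.1 x.2) ?_ (inj D y hD hy)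
    intro x hx
    rw [Finset.mem_coe, mem_filter] at hx
    exact Finset.mem_coe.2 (mem_image_of_mem _ hx.1)
  have h2 := card_dvd D y
  have h3 := Finset.card_filter_add_card_filter_not (s := prs D y) (fun x => x.1 ∣ x.2)
  omega

theorem card_tt_le (D y : ℕ) : (tt D y).card ≤ (prs D y).card := Finset.card_image_le

/-- the exceptional elements -/
theorem card_bad (D y : ℕ) (Q : ℕ → Prop) [DecidablePred Q] :
    ((tt D y).filter Q).card ≤ ((prs D y).filter (fun x => Q (fr D x.1 x.2))).card := by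
  have h1 : (tt D y).filter Q ⊆ ((prs D y).filter (fun x => Q (fr D x.1 x.2))).image
      (fun x => fr D x.1 x.2) := by
    intro t ht
    rw [mem_filter] at ht
    unfold tt at ht
    rw [mem_image] at ht
    obtain ⟨⟨x, hx, rfl⟩, h2⟩ := ht
    exact mem_image_of_mem _ (mem_filter.2 ⟨hx, h2⟩)
  exact (Finset.card_le_card h1).trans Finset.card_image_le

theorem card_prs (D y : ℕ) : (prs D y).card = (PS D y).card * y ^ 2 := by
  unfold prs
  rw [Finset.card_product, Nat.card_Icc]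
  congr 1

theorem card_PS_le (D y : ℕ) : (PS D y).card ≤ y := by
  unfold PS
  calc _ ≤ (Icc 1 y).card := Finset.card_filter_le _ _
    _ = y := by rw [Nat.card_Icc]; omega

theorem card_prs_le (D y : ℕ) : (prs D y).card ≤ y ^ 3 := by
  rw [card_prs]
  calc (PS D y).card * y ^ 2 ≤ y * y ^ 2 := Nat.mul_le_mul_right _ (card_PS_le D y)
    _ = y ^ 3 := by ring

end Pool.MP_dd84fd_nt.ET
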