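import Pool.Agent.Lib.MP_dd84fd_nt.ET.Set
import Pool.Agent.Lib.MP_dd84fd_nt.EM.Values

/-!
# The large spectrum of the law of `a + q t`
-/

set_option autoImplicit false

namespace Pool.MP_dd84fd_nt.ET

open Finset MeasureTheory Pool.Agent.Lib.MP_5349b0_nt.SZ2

private theorem fib (D y : ℕ) (hD : 1 ≤ D) (g : ℕ → ℂ) :
    ∑ t ∈ range D, (((prs D y).filter (fun x => fr D x.1 x.2 = t)).card : ℂ) / (prs D y).card * g t =
      (∑ x ∈ prs D y, g (fr D x.1 x.2)) / (prs D y).card := by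
  have h1 : ∑ x ∈ prs D y, g (fr D x.1 x.2) =
      ∑ t ∈ range D, ∑ x ∈ (prs D y).filter (fun x => fr D x.1 x.2 = t), g (fr D x.1 x.2) :=
    (Finset.sum_fiberwise_of_maps_to (fun x _ => mem_range.2 (fr_lt D x.1 x.2 hD)) _).symm
  rw [h1, Finset.sum_div]
  refine Finset.sum_congr rfl fun t _ => ?_
  rw [Finset.sum_congr rfl (fun x hx => by rw [(mem_filter.1 hx).2] :
    ∀ x ∈ (prs D y).filter (fun x => fr D x.1 x.2 = t), g (fr D x.1 x.2) = g t),
    Finset.sum_const, nsmul_eq_mul]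
  ring

theorem spec_tt (D y : ℕ) (hD : 1 ≤ D) (hy : 1 ≤ y) (hP : 1 ≤ (PS D y).card) (φ : ℝ)
    (hφ : 0 < dZ φ) :
    ‖∑ x ∈ prs D y, e ((fr D x.1 x.2 : ℝ) * φ)‖ / (prs D y).card ≤
      (1 / y + 2 * (Nat.log 2 D : ℝ) / (PS D y).card) * (3 + Real.log D) + 1 / (2 * D * dZ φ) := by
  have hy0 : (0 : ℝ) < y := by exact_mod_cast hy
  have hP0 : (0 : ℝ) < (PS D y).card := by exact_mod_cast hP
  have hc : ((prs D y).card : ℝ) = (PS D y).card * (y : ℝ) ^ 2 := by
    rw [card_prs]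
    push_cast
    ring
  have hc0 : (0 : ℝ) < (prs D y).card := by rw [hc]; positivity
  have h0 : ‖∑ t ∈ range D,
      (((prs D y).filter (fun x => fr D x.1 x.2 = t)).card : ℂ) / (prs D y).card‖ ≤ 1 := by
    have h1 := fib D y hD (fun _ => 1)
    simp only [mul_one, Finset.sum_const, nsmul_eq_mul] at h1
    rw [h1, div_self (by exact_mod_cast hc0.ne'), norm_one]
  have h1 : ∀ k : ℕ, 1 ≤ k → k < D → ‖∑ t ∈ range D,
      (((prs D y).filter (fun x => fr D x.1 x.2 = t)).card : ℂ) / (prs D y).card *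
        e (t * (k / D))‖ ≤ 1 / y + 2 * (Nat.log 2 D : ℝ) / (PS D y).card := by
    intro k hk hkD
    have h2 := fib D y hD (fun t => e ((t : ℝ) * (k / D)))
    rw [h2, norm_div, Complex.norm_natCast, div_le_iff₀ hc0, hc]
    refine (rsw D y k hk hkD hy).trans (le_of_eq ?_)
    field_simp
  have h2 := interp D hD _ _ (by positivity) h0 h1 φ hφ
  have h3 := fib D y hD (fun t => e ((t : ℝ) * φ))
  rw [h3, norm_div, Complex.norm_natCast] at h2
  exact h2

/-- the law of `a + q t` -/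
noncomputable def lw (a q D y n : ℕ) : ℝ :=
  (((prs D y).filter (fun x => a + q * fr D x.1 x.2 = n)).card : ℝ) / (prs D y).card

theorem lw_nonneg (a q D y n : ℕ) : 0 ≤ lw a q D y n := by unfold lw; positivity

theorem lw_mem {a q D y n : ℕ} (h : lw a q D y n ≠ 0) : n ≡ a [MOD q] := by
  unfold lw at h
  have h1 : ((prs D y).filter (fun x => a + q * fr D x.1 x.2 = n)).Nonempty := by
    rw [← Finset.card_pos]
    by_contra hc
    have : ((prs D y).filter (fun x => a + q * fr D x.1 x.2 = n)).card = 0 := by omega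
    rw [this] at h
    simp at h
  obtain ⟨m, hm⟩ := h1
  rw [Finset.mem_filter] at hm
  rw [← hm.2]
  exact (Nat.modEq_iff_dvd' (by omega)).2 (by simp) |>.symm

theorem sum_lw {E : Type*} [Semiring E] [Module ℝ E] [IsScalarTower ℝ E E] (a q D y X : ℕ)
    (hX : ∀ x ∈ prs D y, a + q * fr D x.1 x.2 ∈ Icc 1 X) (f : ℕ → E) :
    ∑ n ∈ Icc 1 X, lw a q D y n • f n =
      (1 / ((prs D y).card : ℝ)) • ∑ x ∈ prs D y, f (a + q * fr D x.1 x.2) := by
  have h1 : ∀ n ∈ Icc 1 X, lw a q D y n • f n = (1 / ((prs D y).card : ℝ)) •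
      ∑ x ∈ (prs D y).filter (fun x => a + q * fr D x.1 x.2 = n), f (a + q * fr D x.1 x.2) := by
    intro n _
    unfold lw
    have h2 : ∑ x ∈ (prs D y).filter (fun x => a + q * fr D x.1 x.2 = n), f (a + q * fr D x.1 x.2) =
        (((prs D y).filter (fun x => a + q * fr D x.1 x.2 = n)).card : ℝ) • f n := by
      rw [Finset.sum_congr rfl (fun m hm => by rw [(Finset.mem_filter.1 hm).2] :
        ∀ m ∈ (prs D y).filter (fun x => a + q * fr D x.1 x.2 = n), f (a + q * fr D m.1 m.2) = f n),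
        Finset.sum_const, ← Nat.cast_smul_eq_nsmul ℝ]
    rw [h2, smul_smul]
    congr 1
    ring
  rw [Finset.sum_congr rfl h1, ← Finset.smul_sum]
  congr 1
  exact Finset.sum_fiberwise_of_maps_to hX _

theorem norm_lw (a q D y X : ℕ) (hX : ∀ x ∈ prs D y, a + q * fr D x.1 x.2 ∈ Icc 1 X) (θ : ℝ) :
    ‖∑ n ∈ Icc 1 X, (lw a q D y n : ℂ) *
      Complex.exp (2 * Real.pi * (n * θ : ℝ) * Complex.I)‖ =
      ‖∑ x ∈ prs D y, e ((fr D x.1 x.2 : ℝ) * (q * θ))‖ / (prs D y).card := by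
  have h1 : ∑ n ∈ Icc 1 X, (lw a q D y n : ℂ) *
      Complex.exp (2 * Real.pi * (n * θ : ℝ) * Complex.I) =
      ∑ n ∈ Icc 1 X, lw a q D y n • Complex.exp (2 * Real.pi * (n * θ : ℝ) * Complex.I) :=
    Finset.sum_congr rfl fun n _ => by rw [Complex.real_smul]
  rw [h1, sum_lw a q D y X hX]
  have h2 : ∑ x ∈ prs D y, Complex.exp (2 * Real.pi * (((a + q * fr D x.1 x.2 : ℕ) : ℝ) * θ : ℝ) *
      Complex.I) = e (a * θ) * ∑ x ∈ prs D y, e ((fr D x.1 x.2 : ℝ) * (q * θ)) := by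
    rw [Finset.mul_sum]
    refine Finset.sum_congr rfl fun m _ => ?_
    rw [← e_add]
    unfold e
    congr 1
    push_cast
    ring
  rw [h2, norm_smul, norm_mul, norm_e, one_mul, Real.norm_eq_abs, abs_of_nonneg (by positivity)]
  ring

/-- the large spectrum has small measure -/
theorem vol_tt (D y q : ℕ) (δ : ℝ) (hD : 1 ≤ D) (hy : 1 ≤ y) (hP : 1 ≤ (PS D y).card) (hq : 1 ≤ q)
    (hδ : 0 < δ)
    (h : (1 / y + 2 * (Nat.log 2 D : ℝ) / (PS D y).card) * (3 + Real.log D) ≤ δ / 2) :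
    volume {θ : ℝ | 0 ≤ θ ∧ θ ≤ 1 ∧
      δ < ‖∑ x ∈ prs D y, e ((fr D x.1 x.2 : ℝ) * (q * θ))‖ / (prs D y).card} ≤
        ENNReal.ofReal (4 * (1 / (D * δ))) := by
  have hD0 : (0 : ℝ) < D := by exact_mod_cast hD
  refine (measure_mono ?_).trans (EM.vol_near q hq (1 / (D * δ)) (by positivity))
  rintro θ ⟨h0, h1, h2⟩
  refine ⟨h0, h1, ?_⟩
  by_contra hc
  push Not at hc
  have h3 : 0 < dZ (q * θ) := lt_trans (by positivity) hc
  have h4 := spec_tt D y hD hy hP (q * θ) h3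
  have h5 : 1 / (2 * D * dZ (q * θ)) ≤ δ / 2 := by
    rw [div_le_iff₀ (by positivity)]
    rw [div_lt_iff₀ (by positivity)] at hc
    linarith
  linarith

end Pool.MP_dd84fd_nt.ET
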